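import Mathlib
import Pool.Agent.Helper89.EM.Basic

/-!
# The engine: relative labellings from sequences with small steps
-/

set_option autoImplicit false

namespace Pool.Agent.Helper89.EM

section Window

variable (ρ : ℕ)

/-- the label of the residue `z`: centred representative plus `ρ` -/
def cen (z : ZMod (2 * ρ + 1)) : ℕ := (z + (ρ : ZMod (2 * ρ + 1))).val

/-- one half -/
def hf : ZMod (2 * ρ + 1) := ((ρ + 1 : ℕ) : ZMod (2 * ρ + 1))

theorem two_hf : (2 : ZMod (2 * ρ + 1)) * hf ρ = 1 := by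
  have h : ((2 * ρ + 1 : ℕ) : ZMod (2 * ρ + 1)) = 0 := ZMod.natCast_self _
  unfold hf
  push_cast at h ⊢
  linear_combination h

theorem neg_hf : -hf ρ = ((ρ : ℕ) : ZMod (2 * ρ + 1)) := by
  have h : ((2 * ρ + 1 : ℕ) : ZMod (2 * ρ + 1)) = 0 := ZMod.natCast_self _
  unfold hf
  push_cast at h ⊢
  linear_combination -h

theorem cen_lt (z : ZMod (2 * ρ + 1)) : cen ρ z < 2 * ρ + 1 := ZMod.val_lt _

theorem cen_cast (z : ZMod (2 * ρ + 1)) : ((cen ρ z : ℕ) : ZMod (2 * ρ + 1)) = z + ρ := by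
  unfold cen
  rw [ZMod.natCast_val, ZMod.cast_id]

theorem cen_eq_of {z : ZMod (2 * ρ + 1)} {v : ℕ} (hv : v < 2 * ρ + 1)
    (h : ((v : ℕ) : ZMod (2 * ρ + 1)) = z + ρ) : cen ρ z = v := by
  unfold cen
  rw [← h, ZMod.val_natCast, Nat.mod_eq_of_lt hv]

theorem exists_cen {v : ℕ} (hv : v < 2 * ρ + 1) : ∃ z, cen ρ z = v :=
  ⟨(v : ZMod (2 * ρ + 1)) - ρ, cen_eq_of ρ hv (by ring)⟩

theorem cen_add_hf (z : ZMod (2 * ρ + 1)) :
    (cen ρ z < ρ ∧ cen ρ (z + hf ρ) = cen ρ z + ρ + 1) ∨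
      (ρ ≤ cen ρ z ∧ cen ρ (z + hf ρ) + ρ = cen ρ z) := by
  have h0 : ((2 * ρ + 1 : ℕ) : ZMod (2 * ρ + 1)) = 0 := ZMod.natCast_self _
  push_cast at h0
  have h1 := cen_cast ρ z
  have h2 := cen_lt ρ z
  rcases Nat.lt_or_ge (cen ρ z) ρ with h | h
  · left
    refine ⟨h, cen_eq_of ρ (by omega) ?_⟩
    unfold hf
    push_cast
    rw [h1]
    ring
  · right
    refine ⟨h, ?_⟩
    have h3 : cen ρ (z + hf ρ) = cen ρ z - ρ := by
      refine cen_eq_of ρ (by omega) ?_
      unfold hf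
      rw [Nat.cast_sub h]
      push_cast
      rw [h1]
      linear_combination -h0
    omega

theorem cen_sub_hf (z : ZMod (2 * ρ + 1)) :
    (cen ρ z ≤ ρ ∧ cen ρ (z - hf ρ) = cen ρ z + ρ) ∨
      (ρ < cen ρ z ∧ cen ρ (z - hf ρ) + ρ + 1 = cen ρ z) := by
  have h := cen_add_hf ρ (z - hf ρ)
  rw [sub_add_cancel] at h
  have h1 := cen_lt ρ z
  have h2 := cen_lt ρ (z - hf ρ)
  omega

/-- the window, both signs -/
theorem window {s : ZMod (2 * ρ + 1)} (hs : s = hf ρ ∨ s = -hf ρ) (z : ZMod (2 * ρ + 1)) :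
    ρ ≤ cen ρ z + cen ρ (z + s) ∧ cen ρ z + cen ρ (z + s) ≤ 3 * ρ := by
  have h1 := cen_lt ρ z
  rcases hs with rfl | rfl
  · have := cen_add_hf ρ z
    omega
  · have := cen_sub_hf ρ z
    rw [← sub_eq_add_neg]
    omega

theorem window_onto {s : ZMod (2 * ρ + 1)} (hs : s = hf ρ ∨ s = -hf ρ) {e : ℕ}
    (he : e < 2 * ρ + 1) : ∃ z, cen ρ z + cen ρ (z + s) = ρ + e := by
  rcases hs with rfl | rfl
  · rcases Nat.even_or_odd' e with ⟨t, rfl | rfl⟩
    · obtain ⟨z, hz⟩ := exists_cen ρ (v := ρ + t) (by omega)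
      refine ⟨z, ?_⟩
      have := cen_add_hf ρ z
      omega
    · obtain ⟨z, hz⟩ := exists_cen ρ (v := t) (by omega)
      refine ⟨z, ?_⟩
      have := cen_add_hf ρ z
      omega
  · rcases Nat.even_or_odd' e with ⟨t, rfl | rfl⟩
    · obtain ⟨z, hz⟩ := exists_cen ρ (v := t) (by omega)
      refine ⟨z, ?_⟩
      have := cen_sub_hf ρ z
      rw [← sub_eq_add_neg]
      omega
    · obtain ⟨z, hz⟩ := exists_cen ρ (v := ρ + t + 1) (by omega)
      refine ⟨z, ?_⟩
      have := cen_sub_hf ρ z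
      rw [← sub_eq_add_neg]
      omega

/-- the mixed edges -/
theorem mixed {s : ZMod (2 * ρ + 1)} (hs : s = hf ρ ∨ s = -hf ρ) (z : ZMod (2 * ρ + 1)) :
    cen ρ z + cen ρ (-(z + (z + s))) + cen ρ (z + s) = 3 * ρ := by
  have h0 : ((2 * ρ + 1 : ℕ) : ZMod (2 * ρ + 1)) = 0 := ZMod.natCast_self _
  push_cast at h0
  obtain ⟨h1, h2⟩ := window ρ hs z
  have h3 : cen ρ (-(z + (z + s))) = 3 * ρ - (cen ρ z + cen ρ (z + s)) := by
    refine cen_eq_of ρ (by omega) ?_
    rw [Nat.cast_sub h2]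
    push_cast
    rw [cen_cast, cen_cast]
    ring
  omega

theorem mixed_onto {s : ZMod (2 * ρ + 1)} (hs : s = hf ρ ∨ s = -hf ρ) {e : ℕ}
    (he : e < 2 * ρ + 1) : ∃ z, cen ρ z + cen ρ (-(z + (z + s))) = ρ + e := by
  obtain ⟨w, hw⟩ := exists_cen ρ (v := 2 * ρ - e) (by omega)
  refine ⟨w - s, ?_⟩
  have := mixed ρ hs (w - s)
  rw [sub_add_cancel] at this ⊢
  omega

end Window

section Edge

variable {ρ : ℕ}

/-- the scaling of a vertex of type `α` -/
def scl (ρ : ℕ) (α : Bool) (t : ZMod (2 * ρ + 1)) : ZMod (2 * ρ + 1) :=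
  if α then -(hf ρ * hf ρ) * t else hf ρ * t

theorem edge (α β : Bool) (u v : ℕ → ZMod (2 * ρ + 1)) {δ : ZMod (2 * ρ + 1)}
    (hδ : ∀ j, v j - u j = δ)
    (h : δ = (if α && β then 2 else 1) ∨ δ = -(if α && β then 2 else 1))
    (hu : ∀ z, ∃ j, scl ρ α (u j) = z) (hv : ∀ z, ∃ j, scl ρ β (v j) = z) {e : ℕ}
    (he : e < 2 * ρ + 1) :
    ∃ j, cen ρ (scl ρ α (u j)) + cen ρ (scl ρ β (v j)) = ρ + e := by
  have h2 := two_hf ρ
  cases α <;> cases β
  · have hs : hf ρ * δ = hf ρ ∨ hf ρ * δ = -hf ρ := by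
      rcases h with rfl | rfl
      · left
        simp
      · right
        simp
    obtain ⟨z, hz⟩ := window_onto ρ hs he
    obtain ⟨j, hj⟩ := hu z
    refine ⟨j, ?_⟩
    have e1 : scl ρ false (v j) = z + hf ρ * δ := by
      rw [← hj, ← hδ j]
      simp only [scl, Bool.false_eq_true, if_false]
      ring
    rw [hj, e1, hz]
  · have hs : hf ρ * δ = hf ρ ∨ hf ρ * δ = -hf ρ := by
      rcases h with rfl | rfl
      · left
        simp
      · right
        simp
    obtain ⟨z, hz⟩ := mixed_onto ρ hs he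
    obtain ⟨j, hj⟩ := hv z
    refine ⟨j, ?_⟩
    have e1 : scl ρ false (u j) = -(z + (z + hf ρ * δ)) := by
      rw [← hj, ← hδ j]
      simp only [scl, Bool.false_eq_true, if_false, if_true]
      linear_combination (-hf ρ * v j) * h2
    rw [hj, e1, add_comm, hz]
  · have hs : -(hf ρ * δ) = hf ρ ∨ -(hf ρ * δ) = -hf ρ := by
      rcases h with rfl | rfl
      · right
        simp
      · left
        simp
    obtain ⟨z, hz⟩ := mixed_onto ρ hs he
    obtain ⟨j, hj⟩ := hu z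
    refine ⟨j, ?_⟩
    have e1 : scl ρ false (v j) = -(z + (z + -(hf ρ * δ))) := by
      rw [← hj, ← hδ j]
      simp only [scl, Bool.false_eq_true, if_false, if_true]
      linear_combination (-hf ρ * u j) * h2
    rw [hj, e1, hz]
  · have hs : -(hf ρ * hf ρ) * δ = hf ρ ∨ -(hf ρ * hf ρ) * δ = -hf ρ := by
      rcases h with rfl | rfl
      · right
        simp only [Bool.and_self, if_true]
        linear_combination (-hf ρ) * h2
      · left
        simp only [Bool.and_self, if_true]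
        linear_combination (hf ρ) * h2
    obtain ⟨z, hz⟩ := window_onto ρ hs he
    obtain ⟨j, hj⟩ := hu z
    refine ⟨j, ?_⟩
    have e1 : scl ρ true (v j) = z + -(hf ρ * hf ρ) * δ := by
      rw [← hj, ← hδ j]
      simp only [scl, if_true]
      ring
    rw [hj, e1, hz]

theorem scl_add (α : Bool) (s t : ZMod (2 * ρ + 1)) :
    scl ρ α (s + t) = scl ρ α s + scl ρ α t := by
  cases α
  · simp only [scl, Bool.false_eq_true, if_false]
    ring
  · simp only [scl, if_true]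
    ring

theorem hit {A : ZMod (2 * ρ + 1)} (hA : IsUnit A) (α : Bool) (u : ℕ → ZMod (2 * ρ + 1))
    (hu : ∀ j : ℕ, u j = u 0 + j * A) (z : ZMod (2 * ρ + 1)) : ∃ j, scl ρ α (u j) = z := by
  have hh : IsUnit (hf ρ) :=
    IsUnit.of_mul_eq_one (2 : ZMod (2 * ρ + 1)) ((mul_comm (hf ρ) 2).trans (two_hf ρ))
  obtain ⟨c, hc, hc'⟩ : ∃ c : ZMod (2 * ρ + 1), IsUnit c ∧ ∀ t, scl ρ α t = c * t := by
    cases α
    · exact ⟨hf ρ, hh, fun t => by simp [scl]⟩
    · exact ⟨-(hf ρ * hf ρ), (hh.mul hh).neg, fun t => by simp [scl]⟩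
  obtain ⟨w, hw⟩ := (hc.mul hA)
  refine ⟨((↑w⁻¹ : ZMod (2 * ρ + 1)) * (z - c * u 0)).val, ?_⟩
  rw [hc', hu, ZMod.natCast_val, ZMod.cast_id]
  have h1 : c * A * (↑w⁻¹ : ZMod (2 * ρ + 1)) = 1 := by rw [← hw, Units.mul_inv]
  linear_combination (z - c * u 0) * h1

end Edge

/-- The engine, residues. -/
theorem engine_zmod {m ρ k : ℕ} (x y : ℕ → ZMod (2 * ρ + 1)) (a b : ℕ → Bool)
    {A : ZMod (2 * ρ + 1)} (hA : IsUnit A)
    (hx : ∀ i, x (i + m) = x i + A) (hy : ∀ i, y (i + m) = y i + A)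
    (ha : ∀ i, a (i + m) = a i) (hb : ∀ i, b (i + m) = b i)
    (hu : ∀ i, x (i + 1) - x i = (if a i && a (i + 1) then 2 else 1) ∨
      x (i + 1) - x i = -(if a i && a (i + 1) then 2 else 1))
    (hs : ∀ i, y i - x i = (if a i && b i then 2 else 1) ∨
      y i - x i = -(if a i && b i then 2 else 1))
    (hi : ∀ i, y (i + k) - y i = (if b i && b (i + k) then 2 else 1) ∨
      y (i + k) - y i = -(if b i && b (i + k) then 2 else 1)) :
    Rel m (2 * ρ + 1) k := by
  have xj : ∀ i j : ℕ, x (i + m * j) = x i + j * A := by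
    intro i j
    induction j with
    | zero => simp
    | succ j ih =>
      rw [Nat.mul_succ, ← Nat.add_assoc, hx, ih]
      push_cast
      ring
  have yj : ∀ i j : ℕ, y (i + m * j) = y i + j * A := by
    intro i j
    induction j with
    | zero => simp
    | succ j ih =>
      rw [Nat.mul_succ, ← Nat.add_assoc, hy, ih]
      push_cast
      ring
  have aj : ∀ i j : ℕ, a (i + m * j) = a i := by
    intro i j
    induction j with
    | zero => simp
    | succ j ih => rw [Nat.mul_succ, ← Nat.add_assoc, ha, ih]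
  have bj : ∀ i j : ℕ, b (i + m * j) = b i := by
    intro i j
    induction j with
    | zero => simp
    | succ j ih => rw [Nat.mul_succ, ← Nat.add_assoc, hb, ih]
  have xhit : ∀ i z, ∃ j, scl ρ (a i) (x (i + m * j)) = z := fun i z =>
    hit hA (a i) (fun j => x (i + m * j)) (fun j => by simp only [xj]; simp) z
  have yhit : ∀ i z, ∃ j, scl ρ (b i) (y (i + m * j)) = z := fun i z =>
    hit hA (b i) (fun j => y (i + m * j)) (fun j => by simp only [yj]; simp) z
  have hρ : (2 * ρ + 1 - 1) / 2 = ρ := by omega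
  have hzero : ((2 * ρ + 1 : ℕ) : ZMod (2 * ρ + 1)) = 0 := ZMod.natCast_self _
  have hsh : ∀ i j l : ℕ, i + m * j + l = (i + l) + m * j := fun i j l => by ring
  refine ⟨fun i => cen ρ (scl ρ (a i) (x i)), fun i => cen ρ (scl ρ (b i) (y i)),
    ?_, ?_, ?_, ?_, ?_, ?_, ?_⟩
  · intro i
    simp only [aj, xj, hzero, zero_mul, add_zero]
  · intro i
    simp only [bj, yj, hzero, zero_mul, add_zero]
  · intro i e he
    obtain ⟨z, hz⟩ := exists_cen ρ he
    obtain ⟨j, hj⟩ := xhit i z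
    exact ⟨j, by simp only [aj, hj, hz]⟩
  · intro i e he
    obtain ⟨z, hz⟩ := exists_cen ρ he
    obtain ⟨j, hj⟩ := yhit i z
    exact ⟨j, by simp only [bj, hj, hz]⟩
  · intro i e he
    obtain ⟨j, hj⟩ := edge (a i) (a (i + 1)) (fun j => x (i + m * j))
      (fun j => x (i + 1 + m * j)) (δ := x (i + 1) - x i)
      (fun j => by simp only [xj]; ring) (hu i) (xhit i) (xhit (i + 1)) he
    refine ⟨j, ?_⟩
    simp only [hsh, aj, hρ]
    exact hj
  · intro i e he
    obtain ⟨j, hj⟩ := edge (a i) (b i) (fun j => x (i + m * j))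
      (fun j => y (i + m * j)) (δ := y i - x i)
      (fun j => by simp only [xj, yj]; ring) (hs i) (xhit i) (yhit i) he
    refine ⟨j, ?_⟩
    simp only [aj, bj, hρ]
    exact hj
  · intro i e he
    obtain ⟨j, hj⟩ := edge (b i) (b (i + k)) (fun j => y (i + m * j))
      (fun j => y (i + k + m * j)) (δ := y (i + k) - y i)
      (fun j => by simp only [yj]; ring) (hi i) (yhit i) (yhit (i + k)) he
    refine ⟨j, ?_⟩
    simp only [hsh, bj, hρ]
    exact hj

end Pool.Agent.Helper89.EM
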