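import Mathlib
import Pool.Agent.Helper92.EM.Engine

/-!
# The engine with integral data and its first three applications
-/

set_option autoImplicit false

namespace Pool.Agent.Helper89.EM

theorem step_cast {ρ : ℕ} {d s : ℤ} {c : Bool} (h : s = 1 ∨ s = -1)
    (hd : ((2 * ρ + 1 : ℕ) : ℤ) ∣ d - s * (if c then 2 else 1)) :
    ((d : ℤ) : ZMod (2 * ρ + 1)) = (if c then 2 else 1) ∨
      ((d : ℤ) : ZMod (2 * ρ + 1)) = -(if c then 2 else 1) := by
  have h1 := (ZMod.intCast_zmod_eq_zero_iff_dvd _ _).2 hd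
  rcases h with rfl | rfl
  · left
    cases c
    · simp only [Bool.false_eq_true, if_false] at h1 ⊢
      push_cast at h1
      linear_combination h1
    · simp only [if_true] at h1 ⊢
      push_cast at h1
      linear_combination h1
  · right
    cases c
    · simp only [Bool.false_eq_true, if_false] at h1 ⊢
      push_cast at h1
      linear_combination h1
    · simp only [if_true] at h1 ⊢
      push_cast at h1
      linear_combination h1

/-- The engine, integers. -/
theorem engine {m r k : ℕ} (hr : r % 2 = 1) (x y : ℕ → ℤ) (a b : ℕ → Bool) {A : ℤ}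
    (hA : IsCoprime A (r : ℤ))
    (hx : ∀ i, (r : ℤ) ∣ x (i + m) - (x i + A)) (hy : ∀ i, (r : ℤ) ∣ y (i + m) - (y i + A))
    (ha : ∀ i, a (i + m) = a i) (hb : ∀ i, b (i + m) = b i)
    (hu : ∀ i, ∃ s : ℤ, (s = 1 ∨ s = -1) ∧
      (r : ℤ) ∣ x (i + 1) - x i - s * (if a i && a (i + 1) then 2 else 1))
    (hs : ∀ i, ∃ s : ℤ, (s = 1 ∨ s = -1) ∧
      (r : ℤ) ∣ y i - x i - s * (if a i && b i then 2 else 1))
    (hi : ∀ i, ∃ s : ℤ, (s = 1 ∨ s = -1) ∧
      (r : ℤ) ∣ y (i + k) - y i - s * (if b i && b (i + k) then 2 else 1)) : Rel m r k := by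
  obtain ⟨ρ, rfl⟩ : ∃ ρ, r = 2 * ρ + 1 := ⟨r / 2, by omega⟩
  have hA' : IsUnit ((A : ℤ) : ZMod (2 * ρ + 1)) := by
    obtain ⟨u, v, huv⟩ := hA
    have h0 : ((2 * ρ + 1 : ℕ) : ZMod (2 * ρ + 1)) = 0 := ZMod.natCast_self _
    have h1 : ((u * A + v * ((2 * ρ + 1 : ℕ) : ℤ) : ℤ) : ZMod (2 * ρ + 1)) = ((1 : ℤ) : ZMod _) := by
      rw [huv]
    rw [Int.cast_add, Int.cast_mul, Int.cast_mul, Int.cast_natCast, h0, mul_zero, add_zero,
      Int.cast_one] at h1
    exact IsUnit.of_mul_eq_one (u : ZMod (2 * ρ + 1)) ((mul_comm _ _).trans h1)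
  refine engine_zmod (fun i => ((x i : ℤ) : ZMod (2 * ρ + 1)))
    (fun i => ((y i : ℤ) : ZMod (2 * ρ + 1))) a b hA' ?_ ?_ ha hb ?_ ?_ ?_
  · intro i
    have h1 := (ZMod.intCast_zmod_eq_zero_iff_dvd _ _).2 (hx i)
    push_cast at h1 ⊢
    linear_combination h1
  · intro i
    have h1 := (ZMod.intCast_zmod_eq_zero_iff_dvd _ _).2 (hy i)
    push_cast at h1 ⊢
    linear_combination h1
  · intro i
    obtain ⟨s, h1, h2⟩ := hu i
    have := step_cast h1 h2
    rwa [Int.cast_sub] at this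
  · intro i
    obtain ⟨s, h1, h2⟩ := hs i
    have := step_cast h1 h2
    rwa [Int.cast_sub] at this
  · intro i
    obtain ⟨s, h1, h2⟩ := hi i
    have := step_cast h1 h2
    rwa [Int.cast_sub] at this

theorem fl_shift {M : ℤ} (hM : 0 < M) (n q : ℤ) : (n + M * q) / M = n / M + q :=
  Int.add_mul_ediv_left n q hM.ne'

theorem fl_pos {M n C : ℤ} (hM : 0 < M) (h0 : 0 ≤ C) (h1 : C ≤ M) :
    (n + C) / M = n / M ∨ (n + C) / M = n / M + 1 := by
  have e1 : n / M ≤ (n + C) / M := Int.ediv_le_ediv hM (by omega)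
  have e2 : (n + C) / M ≤ (n + M * 1) / M := Int.ediv_le_ediv hM (by omega)
  rw [fl_shift hM] at e2
  omega

theorem fl_abs {M n C : ℤ} (hM : 0 < M) (h0 : -M ≤ C) (h1 : C ≤ M) :
    (n + C) / M = n / M - 1 ∨ (n + C) / M = n / M ∨ (n + C) / M = n / M + 1 := by
  have e1 : (n + M * (-1)) / M ≤ (n + C) / M := Int.ediv_le_ediv hM (by omega)
  have e2 : (n + C) / M ≤ (n + M * 1) / M := Int.ediv_le_ediv hM (by omega)
  rw [fl_shift hM] at e1 e2
  omega

/-- the sign of an integer exponent -/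
def sg (e : ℤ) : ℤ := if e % 2 = 0 then 1 else -1

theorem sg_or (e : ℤ) : sg e = 1 ∨ sg e = -1 := by
  unfold sg
  split_ifs
  · exact Or.inl rfl
  · exact Or.inr rfl

theorem sg_same {e f : ℤ} (h : (f - e) % 2 = 0) : sg f = sg e := by
  unfold sg
  split_ifs <;> omega

theorem sg_flip {e f : ℤ} (h : (f - e) % 2 = 1) : sg f = -sg e := by
  unfold sg
  split_ifs <;> omega

/-- First application. -/
theorem rel_one {m r k : ℕ} {A T z : ℤ} (hm : m % 2 = 1) (hr : r % 2 = 1)
    (hA : IsCoprime A (r : ℤ)) (hk : (k : ℤ) * A = T + m * r * z)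
    (hA2 : A % 2 = 1) (hT2 : T % 2 = 1) (hAm : |A| ≤ m) (hTm : |T| ≤ m) : Rel m r k := by
  have hM : (0 : ℤ) < m := by omega
  obtain ⟨hA3, hA4⟩ := abs_le.1 hAm
  obtain ⟨hT3, hT4⟩ := abs_le.1 hTm
  obtain ⟨B, hB⟩ : ∃ B : ℤ, A + m = 2 * B := ⟨(A + m) / 2, by omega⟩
  obtain ⟨C, hC⟩ : ∃ C : ℤ, T + m = 2 * C := ⟨(T + m) / 2, by omega⟩
  -- the parity of `r z + k - 1`
  obtain ⟨Q, hQ⟩ : ∃ Q : ℤ, r * z + k - 1 = 2 * Q := by
    obtain ⟨A', rfl⟩ : ∃ A', A = 2 * A' + 1 := ⟨A / 2, by omega⟩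
    obtain ⟨T', rfl⟩ : ∃ T', T = 2 * T' + 1 := ⟨T / 2, by omega⟩
    obtain ⟨m', hm'⟩ : ∃ m' : ℤ, (m : ℤ) = 2 * m' + 1 := ⟨m / 2, by omega⟩
    rw [hm'] at hk
    exact ⟨T' - A' * k + m' * r * z + r * z, by linear_combination hk⟩
  have hBk : B * k = C + m * Q := by
    have : 2 * (B * k) = 2 * (C + m * Q) := by
      linear_combination (-(k : ℤ)) * hB + hC + m * hQ + hk
    linarith
  set x : ℕ → ℤ := fun i => 2 * (B * i / m) - i with hx
  have hxk : ∀ i : ℕ, x (i + k) - x i = r * z + 1 ∨ x (i + k) - x i = r * z - 1 := by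
    intro i
    have e1 : B * ((i + k : ℕ) : ℤ) = (B * i + C) + m * Q := by
      push_cast
      linear_combination hBk
    have e2 := fl_pos (n := B * i) (C := C) hM (by omega) (by omega)
    simp only [hx]
    rw [e1, fl_shift hM]
    push_cast
    rcases e2 with e2 | e2
    · right
      rw [e2]
      linear_combination -hQ
    · left
      rw [e2]
      linear_combination -hQ
  refine engine (m := m) (r := r) (k := k) hr x (fun i => x i + 1) (fun _ => false)
    (fun _ => false) hA ?_ ?_ (fun _ => rfl) (fun _ => rfl) ?_ ?_ ?_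
  · intro i
    have e1 : B * ((i + m : ℕ) : ℤ) = B * i + m * B := by
      push_cast
      ring
    have : x (i + m) - (x i + A) = 0 := by
      simp only [hx]
      rw [e1, fl_shift hM]
      push_cast
      linear_combination -hB
    rw [this]
    exact dvd_zero _
  · intro i
    have e1 : B * ((i + m : ℕ) : ℤ) = B * i + m * B := by
      push_cast
      ring
    have : x (i + m) + 1 - (x i + 1 + A) = 0 := by
      simp only [hx]
      rw [e1, fl_shift hM]
      push_cast
      linear_combination -hB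
    show (r : ℤ) ∣ x (i + m) + 1 - (x i + 1 + A)
    rw [this]
    exact dvd_zero _
  · intro i
    have e1 : B * ((i + 1 : ℕ) : ℤ) = B * i + B := by
      push_cast
      ring
    have e2 := fl_pos (n := B * i) (C := B) hM (by omega) (by omega)
    simp only [hx, Bool.and_self, Bool.false_eq_true, if_false]
    rw [e1]
    rcases e2 with e2 | e2
    · refine ⟨-1, Or.inr rfl, ?_⟩
      rw [e2]
      push_cast
      refine ⟨0, by ring⟩
    · refine ⟨1, Or.inl rfl, ?_⟩
      rw [e2]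
      push_cast
      refine ⟨0, by ring⟩
  · intro i
    refine ⟨1, Or.inl rfl, 0, ?_⟩
    simp
  · intro i
    simp only [Bool.and_self, Bool.false_eq_true, if_false]
    rcases hxk i with e | e
    · exact ⟨1, Or.inl rfl, z, by linear_combination e⟩
    · exact ⟨-1, Or.inr rfl, z, by linear_combination e⟩

/-- Second application. -/
theorem rel_two {m r k : ℕ} {A T z : ℤ} (hm : m % 2 = 1) (hr : r % 2 = 1)
    (hA : IsCoprime A (r : ℤ)) (hk : (k : ℤ) * A = T + m * r * z)
    (hA2 : A % 2 = 1) (hT4 : T % 4 = 2) (hAm : |A| ≤ m) (hTm : |T| ≤ 2 * m) : Rel m r k := by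
  have hM : (0 : ℤ) < m := by omega
  obtain ⟨hA3, hA4⟩ := abs_le.1 hAm
  obtain ⟨hT3, hT5⟩ := abs_le.1 hTm
  obtain ⟨B, hB⟩ : ∃ B : ℤ, A + m = 2 * B := ⟨(A + m) / 2, by omega⟩
  obtain ⟨C, hC, hC2⟩ : ∃ C : ℤ, T = 2 * C ∧ C % 2 = 1 := ⟨T / 2, by omega, by omega⟩
  obtain ⟨m', hm'⟩ : ∃ m' : ℤ, (m : ℤ) = 2 * m' + 1 := ⟨m / 2, by omega⟩
  obtain ⟨Q, hQ⟩ : ∃ Q : ℤ, r * z + k = 2 * Q := by
    obtain ⟨A', rfl⟩ : ∃ A', A = 2 * A' + 1 := ⟨A / 2, by omega⟩
    rw [hm'] at hk
    exact ⟨C - A' * k + m' * r * z + r * z, by linear_combination hk + hC⟩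
  have hBk : B * k = C + m * Q := by
    have : 2 * (B * k) = 2 * (C + m * Q) := by
      linear_combination (-(k : ℤ)) * hB + hC + m * hQ + hk
    linarith
  set f : ℕ → ℤ := fun i => B * i / m with hf
  have fm : ∀ i : ℕ, f (i + m) = f i + B := by
    intro i
    have e1 : B * ((i + m : ℕ) : ℤ) = B * i + m * B := by
      push_cast
      ring
    simp only [hf]
    rw [e1, fl_shift hM]
  have fk : ∀ i : ℕ, ∃ δ : ℤ, (δ = -1 ∨ δ = 0 ∨ δ = 1) ∧ f (i + k) = f i + δ + Q := by
    intro i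
    have e1 : B * ((i + k : ℕ) : ℤ) = (B * i + C) + m * Q := by
      push_cast
      linear_combination hBk
    have e2 := fl_abs (n := B * i) (C := C) hM (by omega) (by omega)
    simp only [hf]
    rw [e1, fl_shift hM]
    rcases e2 with e2 | e2 | e2
    · exact ⟨-1, by omega, by rw [e2]; ring⟩
    · exact ⟨0, by omega, by rw [e2]; ring⟩
    · exact ⟨1, by omega, by rw [e2]⟩
  have f1 : ∀ i : ℕ, f (i + 1) = f i ∨ f (i + 1) = f i + 1 := by
    intro i
    have e1 : B * ((i + 1 : ℕ) : ℤ) = B * i + B := by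
      push_cast
      ring
    simp only [hf]
    rw [e1]
    exact fl_pos hM (by omega) (by omega)
  refine engine (m := m) (r := r) (k := k) hr (fun i => 2 * f i - i)
    (fun i => 2 * f i - i + sg (f i + B * i)) (fun _ => false)
    (fun _ => true) hA ?_ ?_ (fun _ => rfl) (fun _ => rfl) ?_ ?_ ?_
  · intro i
    refine ⟨0, ?_⟩
    show 2 * f (i + m) - ((i + m : ℕ) : ℤ) - (2 * f i - i + A) = r * 0
    rw [fm]
    push_cast
    linear_combination -hB
  · intro i
    refine ⟨0, ?_⟩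
    show 2 * f (i + m) - ((i + m : ℕ) : ℤ) + sg (f (i + m) + B * ((i + m : ℕ) : ℤ)) -
      (2 * f i - i + sg (f i + B * i) + A) = r * 0
    have e1 : sg (f (i + m) + B * ((i + m : ℕ) : ℤ)) = sg (f i + B * i) := by
      refine sg_same ?_
      rw [fm]
      push_cast
      have : f i + B + B * (i + m) - (f i + B * i) = 2 * (B * (m' + 1)) := by
        rw [hm']
        ring
      rw [this]
      exact Int.mul_emod_right _ _
    rw [e1, fm]
    push_cast
    linear_combination -hB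
  · intro i
    show ∃ s : ℤ, (s = 1 ∨ s = -1) ∧ (r : ℤ) ∣
      2 * f (i + 1) - ((i + 1 : ℕ) : ℤ) - (2 * f i - i) - s * (if false && false then 2 else 1)
    simp only [Bool.and_self, Bool.false_eq_true, if_false]
    rcases f1 i with e2 | e2
    · refine ⟨-1, Or.inr rfl, 0, ?_⟩
      rw [e2]
      push_cast
      ring
    · refine ⟨1, Or.inl rfl, 0, ?_⟩
      rw [e2]
      push_cast
      ring
  · intro i
    show ∃ s : ℤ, (s = 1 ∨ s = -1) ∧ (r : ℤ) ∣
      2 * f i - i + sg (f i + B * i) - (2 * f i - i) - s * (if false && true then 2 else 1)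
    simp only [Bool.false_and, Bool.false_eq_true, if_false]
    exact ⟨sg (f i + B * i), sg_or _, 0, by ring⟩
  · intro i
    show ∃ s : ℤ, (s = 1 ∨ s = -1) ∧ (r : ℤ) ∣
      2 * f (i + k) - ((i + k : ℕ) : ℤ) + sg (f (i + k) + B * ((i + k : ℕ) : ℤ)) -
        (2 * f i - i + sg (f i + B * i)) - s * (if true && true then 2 else 1)
    simp only [Bool.and_self, if_true]
    obtain ⟨δ, hδ, e⟩ := fk i
    have hdiff : f (i + k) + B * ((i + k : ℕ) : ℤ) - (f i + B * i) =
        (δ + C) + 2 * ((m' + 1) * Q) := by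
      rw [e]
      push_cast
      linear_combination hBk + Q * hm'
    rcases hδ with rfl | rfl | rfl
    · have e1 : sg (f (i + k) + B * ((i + k : ℕ) : ℤ)) = sg (f i + B * i) :=
        sg_same (by rw [hdiff, Int.add_mul_emod_self_left]; omega)
      refine ⟨-1, Or.inr rfl, z, ?_⟩
      rw [e1, e]
      push_cast
      linear_combination -hQ
    · have e1 : sg (f (i + k) + B * ((i + k : ℕ) : ℤ)) = -sg (f i + B * i) :=
        sg_flip (by rw [hdiff, Int.add_mul_emod_self_left]; omega)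
      refine ⟨-sg (f i + B * i), ?_, z, ?_⟩
      · rcases sg_or (f i + B * i) with h | h
        · right
          rw [h]
        · left
          rw [h]
          rfl
      · rw [e1, e]
        push_cast
        linear_combination -hQ
    · have e1 : sg (f (i + k) + B * ((i + k : ℕ) : ℤ)) = sg (f i + B * i) :=
        sg_same (by rw [hdiff, Int.add_mul_emod_self_left]; omega)
      refine ⟨1, Or.inl rfl, z, ?_⟩
      rw [e1, e]
      push_cast
      linear_combination -hQ

/-- Third application. -/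
theorem rel_half {m r k : ℕ} {A T z : ℤ} (hm : m % 2 = 1) (hr : r % 2 = 1)
    (hA : IsCoprime A (r : ℤ)) (hk : (k : ℤ) * A = T + m * r * z)
    (hA4 : A % 4 = 2) (hT2 : T % 2 = 1) (hAm : |A| ≤ 2 * m) (hTm : |T| ≤ m) : Rel m r k := by
  have hM : (0 : ℤ) < m := by omega
  obtain ⟨hA3, hA5⟩ := abs_le.1 hAm
  obtain ⟨hT3, hT4⟩ := abs_le.1 hTm
  obtain ⟨B, hB, hB2⟩ : ∃ B : ℤ, A = 2 * B ∧ B % 2 = 1 := ⟨A / 2, by omega, by omega⟩
  obtain ⟨C, hC⟩ : ∃ C : ℤ, T + m = 2 * C := ⟨(T + m) / 2, by omega⟩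
  obtain ⟨m', hm'⟩ : ∃ m' : ℤ, (m : ℤ) = 2 * m' + 1 := ⟨m / 2, by omega⟩
  obtain ⟨Q, hQ⟩ : ∃ Q : ℤ, r * z - 1 = 2 * Q := by
    obtain ⟨T', rfl⟩ : ∃ T', T = 2 * T' + 1 := ⟨T / 2, by omega⟩
    rw [hm'] at hk
    exact ⟨k * B - T' - m' * r * z - 1, by linear_combination -hk + k * hB⟩
  have hBk : B * k = C + m * Q := by
    have : 2 * (B * k) = 2 * (C + m * Q) := by
      linear_combination (-(k : ℤ)) * hB + hC + m * hQ + hk
    linarith
  set f : ℕ → ℤ := fun i => B * i / m with hf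
  have fm : ∀ i : ℕ, f (i + m) = f i + B := by
    intro i
    have e1 : B * ((i + m : ℕ) : ℤ) = B * i + m * B := by
      push_cast
      ring
    simp only [hf]
    rw [e1, fl_shift hM]
  have fk : ∀ i : ℕ, f (i + k) = f i + Q ∨ f (i + k) = f i + 1 + Q := by
    intro i
    have e1 : B * ((i + k : ℕ) : ℤ) = (B * i + C) + m * Q := by
      push_cast
      linear_combination hBk
    have e2 := fl_pos (n := B * i) (C := C) hM (by omega) (by omega)
    simp only [hf]
    rw [e1, fl_shift hM]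
    rcases e2 with e2 | e2
    · left
      rw [e2]
    · right
      rw [e2]
  have f1 : ∀ i : ℕ, f (i + 1) = f i - 1 ∨ f (i + 1) = f i ∨ f (i + 1) = f i + 1 := by
    intro i
    have e1 : B * ((i + 1 : ℕ) : ℤ) = B * i + B := by
      push_cast
      ring
    simp only [hf]
    rw [e1]
    exact fl_abs hM (by omega) (by omega)
  refine engine (m := m) (r := r) (k := k) hr (fun i => 2 * f i + sg (f i + i))
    (fun i => 2 * f i) (fun _ => true)
    (fun _ => false) hA ?_ ?_ (fun _ => rfl) (fun _ => rfl) ?_ ?_ ?_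
  · intro i
    refine ⟨0, ?_⟩
    show 2 * f (i + m) + sg (f (i + m) + ((i + m : ℕ) : ℤ)) - (2 * f i + sg (f i + i) + A) = r * 0
    have e1 : sg (f (i + m) + ((i + m : ℕ) : ℤ)) = sg (f i + i) := by
      refine sg_same ?_
      rw [fm]
      push_cast
      omega
    rw [e1, fm]
    linear_combination -hB
  · intro i
    refine ⟨0, ?_⟩
    show 2 * f (i + m) - (2 * f i + A) = r * 0
    rw [fm]
    linear_combination -hB
  · intro i
    show ∃ s : ℤ, (s = 1 ∨ s = -1) ∧ (r : ℤ) ∣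
      2 * f (i + 1) + sg (f (i + 1) + ((i + 1 : ℕ) : ℤ)) - (2 * f i + sg (f i + i)) -
        s * (if true && true then 2 else 1)
    simp only [Bool.and_self, if_true]
    rcases f1 i with e2 | e2 | e2
    · have e1 : sg (f (i + 1) + ((i + 1 : ℕ) : ℤ)) = sg (f i + i) :=
        sg_same (by rw [e2]; push_cast; omega)
      refine ⟨-1, Or.inr rfl, 0, ?_⟩
      rw [e1, e2]
      ring
    · have e1 : sg (f (i + 1) + ((i + 1 : ℕ) : ℤ)) = -sg (f i + i) :=
        sg_flip (by rw [e2]; push_cast; omega)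
      refine ⟨-sg (f i + i), ?_, 0, ?_⟩
      · rcases sg_or (f i + i) with h | h
        · right
          rw [h]
        · left
          rw [h]
          rfl
      · rw [e1, e2]
        ring
    · have e1 : sg (f (i + 1) + ((i + 1 : ℕ) : ℤ)) = sg (f i + i) :=
        sg_same (by rw [e2]; push_cast; omega)
      refine ⟨1, Or.inl rfl, 0, ?_⟩
      rw [e1, e2]
      ring
  · intro i
    show ∃ s : ℤ, (s = 1 ∨ s = -1) ∧ (r : ℤ) ∣
      2 * f i - (2 * f i + sg (f i + i)) - s * (if true && false then 2 else 1)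
    simp only [Bool.and_false, Bool.false_eq_true, if_false]
    refine ⟨-sg (f i + i), ?_, 0, by ring⟩
    rcases sg_or (f i + i) with h | h
    · right
      rw [h]
    · left
      rw [h]
      rfl
  · intro i
    show ∃ s : ℤ, (s = 1 ∨ s = -1) ∧ (r : ℤ) ∣
      2 * f (i + k) - 2 * f i - s * (if false && false then 2 else 1)
    simp only [Bool.and_self, Bool.false_eq_true, if_false]
    rcases fk i with e | e
    · refine ⟨-1, Or.inr rfl, z, ?_⟩
      rw [e]
      linear_combination -hQ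
    · refine ⟨1, Or.inl rfl, z, ?_⟩
      rw [e]
      linear_combination -hQ

end Pool.Agent.Helper89.EM
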