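import Mathlib
import Pool.Agent.Helper92.EM.Engine2

/-!
# The even case: the relation for odd `m` and `r` and even `k`
-/

set_option autoImplicit false

namespace Pool.Agent.Helper89.EM

namespace Ev

/-- membership in the first pattern -/
def T (k g I : ℕ) : Prop :=
  I = 0 ∨ I = k ∨ I = g ∨ I = k + g ∨
    (2 ≤ I ∧ I + 2 ≤ k + g ∧ ¬(I % 2 = 1 ∧ 3 ≤ I ∧ I + 2 ≤ g) ∧
      ¬(I % 2 = 0 ∧ k + 2 ≤ I ∧ I + 3 ≤ k + g))

instance (k g I : ℕ) : Decidable (T k g I) := by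
  unfold T
  infer_instance

/-- membership in the second pattern -/
def N (k g I e : ℕ) : Prop :=
  I = 0 ∨ I = 1 ∨ I + 1 = k + g ∨ I = k + g ∨ (2 * k + g ≤ I ∧ e + 1 = k) ∨
    (I % 2 = 1 ∧ 3 ≤ I ∧ I + 2 ≤ g) ∨ (I % 2 = 0 ∧ k + 2 ≤ I ∧ I + 3 ≤ k + g)

instance (k g I e : ℕ) : Decidable (N k g I e) := by
  unfold N
  infer_instance

/-- the shift in the middle -/
def F (k g I : ℕ) : ℤ := if 1 ≤ I ∧ I + 1 ≤ k + g then 1 else 0

/-- inner label -/
def Y (k g I e : ℕ) (S : ℤ) : ℤ :=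
  if T k g I then ((I : ℤ) + 1 + F k g I) % 2
  else if I < k then 0
  else if e + 1 = k then S
  else if I % 2 = 1 then 1 + S
  else if k + 1 ≤ e + g then -S else S

/-- outer label -/
def X (k g I e : ℕ) (S : ℤ) : ℤ :=
  if ¬ N k g I e then ((I : ℤ) + F k g I) % 2
  else if I = 0 then 0
  else if I < k then 2
  else if g = 1 ∧ I = k then 1
  else if g = 1 ∧ I = k + 1 then -1
  else if I = k + g then -S
  else -Y k g I e S

/-- indicator -/
def tz (k g I : ℕ) : ℤ := if T k g I then 1 else 0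

/-- indicator -/
def nz (k g I e : ℕ) : ℤ := if N k g I e then 1 else 0

/-- the table -/
def Tab (k g I e : ℕ) (S t n x y : ℤ) : Prop :=
  (I = 0 ∧ t = 1 ∧ n = 1 ∧ x = 0 ∧ y = 1) ∨
  (I = 1 ∧ g = 1 ∧ t = 1 ∧ n = 1 ∧ x = 2 ∧ y = 1) ∨
  (I = 1 ∧ 3 ≤ g ∧ t = 0 ∧ n = 1 ∧ x = 2 ∧ y = 0) ∨
  (I % 2 = 1 ∧ 3 ≤ I ∧ I + 2 ≤ g ∧ t = 0 ∧ n = 1 ∧ x = 2 ∧ y = 0) ∨
  (I % 2 = 0 ∧ k + 2 ≤ I ∧ I + 3 ≤ k + g ∧ k + 1 ≤ e + g ∧ t = 0 ∧ n = 1 ∧ x = S ∧ y = -S) ∨
  (I % 2 = 0 ∧ k + 2 ≤ I ∧ I + 3 ≤ k + g ∧ e + g ≤ k ∧ t = 0 ∧ n = 1 ∧ x = -S ∧ y = S) ∨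
  (2 ≤ I ∧ I + 2 ≤ k + g ∧ I % 2 = 1 ∧ g ≤ I ∧ t = 1 ∧ n = 0 ∧ x = 0 ∧ y = 1) ∨
  (2 ≤ I ∧ I + 2 ≤ k + g ∧ I % 2 = 0 ∧ I ≤ k ∧ t = 1 ∧ n = 0 ∧ x = 1 ∧ y = 0) ∨
  (I + 1 = k + g ∧ g = 1 ∧ t = 1 ∧ n = 1 ∧ x = 1 ∧ y = 0) ∨
  (I + 1 = k + g ∧ 3 ≤ g ∧ t = 0 ∧ n = 1 ∧ x = -S ∧ y = S) ∨
  (I = k + g ∧ g = 1 ∧ t = 1 ∧ n = 1 ∧ x = -1 ∧ y = 0) ∨
  (I = k + g ∧ 3 ≤ g ∧ t = 1 ∧ n = 1 ∧ x = -S ∧ y = 0) ∨
  (2 * k + g ≤ I ∧ e + 1 = k ∧ t = 0 ∧ n = 1 ∧ x = -S ∧ y = S) ∨
  (k + g < I ∧ e + 1 < k ∧ I % 2 = 1 ∧ t = 0 ∧ n = 0 ∧ x = 1 ∧ y = 1 + S) ∨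
  (k + g < I ∧ e + 1 < k ∧ I % 2 = 0 ∧ k + 1 ≤ e + g ∧ t = 0 ∧ n = 0 ∧ x = 0 ∧ y = -S) ∨
  (k + g < I ∧ e + 1 < k ∧ I % 2 = 0 ∧ e + g ≤ k ∧ t = 0 ∧ n = 0 ∧ x = 0 ∧ y = S)

theorem table {k g I e : ℕ} {S : ℤ} (hk : k % 2 = 0) (hk4 : 4 ≤ k) (hg : g % 2 = 1) (hgk : g < k)
    (he : e < k) (hL : e + 1 = k → I = g ∨ I = k + g ∨ 2 * k + g ≤ I ∨ I = 0)
    (hL2 : I + 1 = k + g → e = 0) :
    Tab k g I e S (tz k g I) (nz k g I e) (X k g I e S) (Y k g I e S) := by
  unfold Tab tz nz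
  by_cases h0 : I = 0
  · have hT : T k g I := Or.inl h0
    have hN : N k g I e := Or.inl h0
    refine Or.inl ⟨h0, if_pos hT, if_pos hN, ?_, ?_⟩
    · rw [X, if_neg (not_not.2 hN), if_pos h0]
    · rw [Y, if_pos hT, F, if_neg (by omega)]
      omega
  by_cases h1 : I = 1
  · have hN : N k g I e := Or.inr (Or.inl h1)
    by_cases hg1 : g = 1
    · have hT : T k g I := Or.inr (Or.inr (Or.inl (by omega)))
      refine Or.inr (Or.inl ⟨h1, hg1, if_pos hT, if_pos hN, ?_, ?_⟩)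
      · rw [X, if_neg (not_not.2 hN), if_neg h0, if_pos (by omega)]
      · rw [Y, if_pos hT, F, if_pos (by omega)]
        omega
    · have hT : ¬ T k g I := by
        unfold T
        omega
      refine Or.inr (Or.inr (Or.inl ⟨h1, by omega, if_neg hT, if_pos hN, ?_, ?_⟩))
      · rw [X, if_neg (not_not.2 hN), if_neg h0, if_pos (by omega)]
      · rw [Y, if_neg hT, if_pos (by omega)]
  by_cases h2 : I % 2 = 1 ∧ 3 ≤ I ∧ I + 2 ≤ g
  · have hN : N k g I e := by
      unfold N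
      omega
    have hT : ¬ T k g I := by
      unfold T
      omega
    refine Or.inr (Or.inr (Or.inr (Or.inl ⟨h2.1, h2.2.1, h2.2.2, if_neg hT, if_pos hN, ?_, ?_⟩)))
    · rw [X, if_neg (not_not.2 hN), if_neg h0, if_pos (by omega)]
    · rw [Y, if_neg hT, if_pos (by omega)]
  by_cases h3 : I % 2 = 0 ∧ k + 2 ≤ I ∧ I + 3 ≤ k + g
  · have hN : N k g I e := by
      unfold N
      omega
    have hT : ¬ T k g I := by
      unfold T
      omega
    have hX : X k g I e S = - Y k g I e S := by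
      rw [X, if_neg (not_not.2 hN), if_neg h0, if_neg (by omega), if_neg (by omega),
        if_neg (by omega), if_neg (by omega)]
    have hY : Y k g I e S = if k + 1 ≤ e + g then -S else S := by
      rw [Y, if_neg hT, if_neg (by omega), if_neg (by omega), if_neg (by omega)]
    by_cases h4 : k + 1 ≤ e + g
    · rw [if_pos h4] at hY
      refine Or.inr (Or.inr (Or.inr (Or.inr (Or.inl
        ⟨h3.1, h3.2.1, h3.2.2, h4, if_neg hT, if_pos hN, ?_, hY⟩))))
      rw [hX, hY, neg_neg]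
    · rw [if_neg h4] at hY
      refine Or.inr (Or.inr (Or.inr (Or.inr (Or.inr (Or.inl
        ⟨h3.1, h3.2.1, h3.2.2, by omega, if_neg hT, if_pos hN, ?_, hY⟩)))))
      rw [hX, hY]
  by_cases h4 : 2 ≤ I ∧ I + 2 ≤ k + g
  · have hT : T k g I := by
      unfold T
      omega
    have hN : ¬ N k g I e := by
      unfold N
      omega
    have hX : X k g I e S = ((I : ℤ) + 1) % 2 := by
      rw [X, if_pos hN, F, if_pos (by omega)]
    have hY : Y k g I e S = ((I : ℤ) + 1 + 1) % 2 := by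
      rw [Y, if_pos hT, F, if_pos (by omega)]
    rw [if_pos hT, if_neg hN, hX, hY]
    clear hX hY hT hN
    by_cases h5 : I % 2 = 1
    · refine Or.inr (Or.inr (Or.inr (Or.inr (Or.inr (Or.inr (Or.inl
        ⟨h4.1, h4.2, h5, by omega, rfl, rfl, by omega, by omega⟩))))))
    · refine Or.inr (Or.inr (Or.inr (Or.inr (Or.inr (Or.inr (Or.inr (Or.inl
        ⟨h4.1, h4.2, by omega, by omega, rfl, rfl, by omega, by omega⟩)))))))
  by_cases h5 : I + 1 = k + g
  · have hN : N k g I e := by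
      unfold N
      omega
    have he0 := hL2 h5
    by_cases hg1 : g = 1
    · have hT : T k g I := by
        unfold T
        omega
      refine Or.inr (Or.inr (Or.inr (Or.inr (Or.inr (Or.inr (Or.inr (Or.inr (Or.inl
        ⟨h5, hg1, if_pos hT, if_pos hN, ?_, ?_⟩))))))))
      · rw [X, if_neg (not_not.2 hN), if_neg h0, if_neg (by omega), if_pos (by omega)]
      · rw [Y, if_pos hT, F, if_pos (by omega)]
        omega
    · have hT : ¬ T k g I := by
        unfold T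
        omega
      have hX : X k g I e S = - Y k g I e S := by
        rw [X, if_neg (not_not.2 hN), if_neg h0, if_neg (by omega), if_neg (by omega),
          if_neg (by omega), if_neg (by omega)]
      have hY : Y k g I e S = S := by
        rw [Y, if_neg hT, if_neg (by omega), if_neg (by omega), if_neg (by omega),
          if_neg (by omega)]
      refine Or.inr (Or.inr (Or.inr (Or.inr (Or.inr (Or.inr (Or.inr (Or.inr (Or.inr (Or.inl
        ⟨h5, by omega, if_neg hT, if_pos hN, ?_, hY⟩)))))))))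
      rw [hX, hY]
  by_cases h6 : I = k + g
  · have hN : N k g I e := by
      unfold N
      omega
    have hT : T k g I := by
      unfold T
      omega
    have hY : Y k g I e S = 0 := by
      rw [Y, if_pos hT, F, if_neg (by omega)]
      omega
    by_cases hg1 : g = 1
    · refine Or.inr (Or.inr (Or.inr (Or.inr (Or.inr (Or.inr (Or.inr (Or.inr (Or.inr (Or.inr
        (Or.inl ⟨h6, hg1, if_pos hT, if_pos hN, ?_, hY⟩))))))))))
      rw [X, if_neg (not_not.2 hN), if_neg h0, if_neg (by omega), if_neg (by omega),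
        if_pos (by omega)]
    · refine Or.inr (Or.inr (Or.inr (Or.inr (Or.inr (Or.inr (Or.inr (Or.inr (Or.inr (Or.inr
        (Or.inr (Or.inl ⟨h6, by omega, if_pos hT, if_pos hN, ?_, hY⟩)))))))))))
      rw [X, if_neg (not_not.2 hN), if_neg h0, if_neg (by omega), if_neg (by omega),
        if_neg (by omega), if_pos h6]
  have h7 : k + g < I := by omega
  have hT : ¬ T k g I := by
    unfold T
    omega
  by_cases h8 : e + 1 = k
  · have h9 : 2 * k + g ≤ I := by omega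
    have hN : N k g I e := by
      unfold N
      omega
    have hY : Y k g I e S = S := by
      rw [Y, if_neg hT, if_neg (by omega), if_pos h8]
    refine Or.inr (Or.inr (Or.inr (Or.inr (Or.inr (Or.inr (Or.inr (Or.inr (Or.inr (Or.inr
        (Or.inr (Or.inr (Or.inl ⟨h9, h8, if_neg hT, if_pos hN, ?_, hY⟩))))))))))))
    rw [X, if_neg (not_not.2 hN), if_neg h0, if_neg (by omega), if_neg (by omega),
      if_neg (by omega), if_neg h6, hY]
  have hN : ¬ N k g I e := by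
    unfold N
    omega
  have hX : X k g I e S = (I : ℤ) % 2 := by
    rw [X, if_pos hN, F, if_neg (by omega), add_zero]
  have hY : Y k g I e S = if I % 2 = 1 then 1 + S else if k + 1 ≤ e + g then -S else S := by
    rw [Y, if_neg hT, if_neg (by omega), if_neg h8]
  rw [if_neg hT, if_neg hN, hX, hY]
  clear hX hY hT hN
  by_cases h9 : I % 2 = 1
  · rw [if_pos h9]
    refine Or.inr (Or.inr (Or.inr (Or.inr (Or.inr (Or.inr (Or.inr (Or.inr (Or.inr (Or.inr
        (Or.inr (Or.inr (Or.inr (Or.inl ⟨h7, by omega, h9, rfl, rfl, by omega, rfl⟩)))))))))))))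
  · rw [if_neg h9]
    by_cases h10 : k + 1 ≤ e + g
    · rw [if_pos h10]
      refine Or.inr (Or.inr (Or.inr (Or.inr (Or.inr (Or.inr (Or.inr (Or.inr (Or.inr (Or.inr
        (Or.inr (Or.inr (Or.inr (Or.inr (Or.inl
          ⟨h7, by omega, by omega, h10, rfl, rfl, by omega, rfl⟩))))))))))))))
    · rw [if_neg h10]
      refine Or.inr (Or.inr (Or.inr (Or.inr (Or.inr (Or.inr (Or.inr (Or.inr (Or.inr (Or.inr
        (Or.inr (Or.inr (Or.inr (Or.inr (Or.inr
          ⟨h7, by omega, by omega, by omega, rfl, rfl, by omega, rfl⟩))))))))))))))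

theorem fact_S {k g I e : ℕ} {S t n x y : ℤ} (hS : S = 1 ∨ S = -1) (h : Tab k g I e S t n x y) :
    (n = 1 ∧ t = 0 → y - x = 2 ∨ y - x = -2) ∧ (n = 0 ∨ t = 1 → y - x = 1 ∨ y - x = -1) := by
  rcases h with h | h | h | h | h | h | h | h | h | h | h | h | h | h | h | h <;> omega

theorem fact_U {k g I e e' : ℕ} {S t n x y S' t' n' x' y' : ℤ} (hk : k % 2 = 0) (hk4 : 4 ≤ k)
    (hg : g % 2 = 1) (hgk : g < k) (hS : S = 1 ∨ S = -1)
    (hL : e + 1 = k → I = g ∨ I = k + g ∨ 2 * k + g ≤ I ∨ I = 0)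
    (hL' : e' + 1 = k → I + 1 = g ∨ I + 1 = k + g ∨ 2 * k + g ≤ I + 1)
    (h2 : g ≤ I → I < k + g → e + I + 1 = k + g)
    (hP : e % 2 = I % 2)
    (hst : (1 ≤ e ∧ e' + 1 = e ∧ S' = S) ∨ (e = 0 ∧ e' + 1 = k ∧ S' = -S))
    (h : Tab k g I e S t n x y) (h' : Tab k g (I + 1) e' S' t' n' x' y') :
    (n = 1 ∧ n' = 1 → x' - x = 2 ∨ x' - x = -2) ∧
      (n = 0 ∨ n' = 0 → x' - x = 1 ∨ x' - x = -1) := by
  rcases h with h | h | h | h | h | h | h | h | h | h | h | h | h | h | h | h <;>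
  rcases h' with h' | h' | h' | h' | h' | h' | h' | h' | h' | h' | h' | h' | h' | h' | h' | h' <;>
    omega

theorem fact_V {k g I e : ℕ} {S t n x y t' n' x' y' : ℤ} (hk : k % 2 = 0) (hk4 : 4 ≤ k)
    (hg : g % 2 = 1) (hgk : g < k) (hS : S = 1 ∨ S = -1)
    (hL : e + 1 = k → I = g ∨ I = k + g ∨ 2 * k + g ≤ I ∨ I = 0)
    (h2 : g ≤ I → I < k + g → e + I + 1 = k + g)
    (h3 : k + g ≤ I → I < 2 * k + g → e + I + 1 = 2 * k + g)
    (h1 : I < g → e + I + 1 = g)
    (hP : e % 2 = I % 2)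
    (h : Tab k g I e S t n x y) (h' : Tab k g (I + k) e (-S) t' n' x' y') :
    (t = 0 ∧ t' = 0 → y' - y = 2 ∨ y' - y = -2) ∧
      (t = 1 ∨ t' = 1 → y' - y = 1 ∨ y' - y = -1) := by
  rcases h with h | h | h | h | h | h | h | h | h | h | h | h | h | h | h | h <;>
  rcases h' with h' | h' | h' | h' | h' | h' | h' | h' | h' | h' | h' | h' | h' | h' | h' | h' <;>
    omega

theorem fact_W {m k g I J e e' : ℕ} {S' t n x y t' n' x' y' : ℤ} (hk : k % 2 = 0) (hk4 : 4 ≤ k)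
    (hg : g % 2 = 1) (hgk : g < k) (hm : m % 2 = 1) (hmk : 3 * k + g ≤ m) (hI : I < m)
    (hJ : I + k = m + J) (he : e + I + 1 = m)
    (h : Tab k g I e 1 t n x y) (h' : Tab k g J e' S' t' n' x' y') :
    (t = 0 ∧ t' = 0 → y' + 1 - y = 2 ∨ y' + 1 - y = -2) ∧
      (t = 1 ∨ t' = 1 → y' + 1 - y = 1 ∨ y' + 1 - y = -1) := by
  rcases h with h | h | h | h | h | h | h | h | h | h | h | h | h | h | h | h <;>
  rcases h' with h' | h' | h' | h' | h' | h' | h' | h' | h' | h' | h' | h' | h' | h' | h' | h' <;>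
    omega

theorem fact_Z {m k g I e e' : ℕ} {S S' t n x y t' n' x' y' : ℤ} (hk : k % 2 = 0) (hk4 : 4 ≤ k)
    (hg : g % 2 = 1) (hgk : g < k) (hm : m % 2 = 1) (hmk : 3 * k + g ≤ m)
    (hI : I + 1 = m) (he : e = 0)
    (h : Tab k g I e S t n x y) (h' : Tab k g 0 e' S' t' n' x' y') :
    (n = 1 ∧ n' = 1 → x' + 1 - x = 2 ∨ x' + 1 - x = -2) ∧
      (n = 0 ∨ n' = 0 → x' + 1 - x = 1 ∨ x' + 1 - x = -1) := by
  rcases h with h | h | h | h | h | h | h | h | h | h | h | h | h | h | h | h <;>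
  rcases h' with h' | h' | h' | h' | h' | h' | h' | h' | h' | h' | h' | h' | h' | h' | h' | h' <;>
    omega

/-- the remainder -/
def E (m k I : ℕ) : ℕ := (m - 1 - I) % k

/-- the sign -/
def G (m k I : ℕ) : ℤ := if (m - 1 - I) / k % 2 = 0 then 1 else -1

theorem G_or (m k I : ℕ) : G m k I = 1 ∨ G m k I = -1 := by
  unfold G
  split_ifs
  · exact Or.inl rfl
  · exact Or.inr rfl

theorem dm {n k c d : ℕ} (hc : c < k) (h : n = k * d + c) : n / k = d ∧ n % k = c :=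
  (Nat.div_mod_unique (by omega)).2 ⟨by rw [h, add_comm], hc⟩

theorem E_lt {m k I : ℕ} (hk : 0 < k) : E m k I < k := Nat.mod_lt _ hk

theorem E_par {m k I : ℕ} (hk : k % 2 = 0) (hm : m % 2 = 1) (hI : I < m) :
    E m k I % 2 = I % 2 := by
  unfold E
  rw [Nat.mod_mod_of_dvd _ (Nat.dvd_of_mod_eq_zero hk)]
  omega

theorem E_loc {m k g I : ℕ} (hmod : m % k = g) (hmk : 3 * k ≤ m) (hk : 0 < k) :
    (I < g → E m k I + I + 1 = g) ∧
    (g ≤ I → I < k + g → E m k I + I + 1 = k + g) ∧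
    (k + g ≤ I → I < 2 * k + g → E m k I + I + 1 = 2 * k + g) := by
  obtain ⟨j, hj⟩ : ∃ j, m = k * j + g := ⟨m / k, by
    rw [← hmod]
    exact (Nat.div_add_mod m k).symm⟩
  have hg : g < k := by
    rw [← hmod]
    exact Nat.mod_lt _ hk
  have hj3 : 3 ≤ j := by
    by_contra h
    have h1 : k * j ≤ k * 2 := Nat.mul_le_mul_left k (by omega)
    omega
  obtain ⟨s, rfl⟩ : ∃ s, j = s + 3 := ⟨j - 3, by omega⟩
  have e0 : k * (s + 3) = k * s + 3 * k := by ring
  rw [e0] at hj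
  unfold E
  refine ⟨fun h => ?_, fun h1 h2 => ?_, fun h1 h2 => ?_⟩
  · have := (dm (n := m - 1 - I) (k := k) (c := g - 1 - I) (d := s + 3) (by omega)
      (by rw [e0]; omega)).2
    omega
  · have e1 : k * (s + 2) = k * s + 2 * k := by ring
    have := (dm (n := m - 1 - I) (k := k) (c := k + g - 1 - I) (d := s + 2) (by omega)
      (by rw [e1]; omega)).2
    omega
  · have e1 : k * (s + 1) = k * s + k := by ring
    have := (dm (n := m - 1 - I) (k := k) (c := 2 * k + g - 1 - I) (d := s + 1) (by omega)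
      (by rw [e1]; omega)).2
    omega

theorem EG_step {m k I : ℕ} (hk : 0 < k) (hI : I + 1 < m) :
    (1 ≤ E m k I ∧ E m k (I + 1) + 1 = E m k I ∧ G m k (I + 1) = G m k I) ∨
      (E m k I = 0 ∧ E m k (I + 1) + 1 = k ∧ G m k (I + 1) = -G m k I) := by
  have h1 := Nat.div_add_mod (m - 1 - I) k
  have h2 : (m - 1 - I) % k < k := Nat.mod_lt _ hk
  have h3 : m - 1 - (I + 1) = m - 1 - I - 1 := by omega
  have h4 : 1 ≤ m - 1 - I := by omega
  unfold E G
  rw [h3]
  generalize m - 1 - I = n at *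
  generalize hd : n / k = d at *
  generalize hc : n % k = c at *
  by_cases h0 : c = 0
  · right
    subst h0
    have hd1 : 1 ≤ d := by
      rcases Nat.eq_zero_or_pos d with h | h
      · rw [h] at h1
        omega
      · exact h
    obtain ⟨d', rfl⟩ : ∃ d', d = d' + 1 := ⟨d - 1, by omega⟩
    have e1 : k * (d' + 1) = k * d' + k := by ring
    rw [e1] at h1
    obtain ⟨h5, h6⟩ := dm (n := n - 1) (k := k) (c := k - 1) (d := d') (by omega) (by omega)
    rw [h5, h6]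
    refine ⟨rfl, by omega, ?_⟩
    split_ifs <;> omega
  · left
    obtain ⟨h5, h6⟩ := dm (n := n - 1) (k := k) (c := c - 1) (d := d) (by omega) (by omega)
    rw [h5, h6]
    exact ⟨by omega, by omega, rfl⟩

theorem EG_shift {m k I : ℕ} (hk : 0 < k) (hI : I + k < m) :
    E m k (I + k) = E m k I ∧ G m k (I + k) = -G m k I := by
  have h1 := Nat.div_add_mod (m - 1 - I) k
  have h2 : (m - 1 - I) % k < k := Nat.mod_lt _ hk
  have h3 : m - 1 - (I + k) = m - 1 - I - k := by omega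
  have h4 : k ≤ m - 1 - I := by omega
  unfold E G
  rw [h3]
  generalize m - 1 - I = n at *
  generalize hd : n / k = d at *
  generalize hc : n % k = c at *
  have hd1 : 1 ≤ d := by
    rcases Nat.eq_zero_or_pos d with h | h
    · rw [h] at h1
      omega
    · exact h
  obtain ⟨d', rfl⟩ : ∃ d', d = d' + 1 := ⟨d - 1, by omega⟩
  have e1 : k * (d' + 1) = k * d' + k := by ring
  rw [e1] at h1
  obtain ⟨h5, h6⟩ := dm (n := n - k) (k := k) (c := c) (d := d') (by omega) (by omega)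
  rw [h5, h6]
  refine ⟨rfl, ?_⟩
  split_ifs <;> omega

theorem EG_top {m k I : ℕ} (hI : I < m) (hIk : m ≤ I + k) :
    E m k I + I + 1 = m ∧ G m k I = 1 := by
  obtain ⟨h5, h6⟩ := dm (n := m - 1 - I) (k := k) (c := m - 1 - I) (d := 0) (by omega) (by omega)
  unfold E G
  rw [h5, h6]
  exact ⟨by omega, if_pos rfl⟩

theorem conv {r : ℕ} {a b : Bool} {D : ℤ} (h1 : a = true ∧ b = true → D = 2 ∨ D = -2)
    (h2 : a = false ∨ b = false → D = 1 ∨ D = -1) :
    ∃ s : ℤ, (s = 1 ∨ s = -1) ∧ (r : ℤ) ∣ D - s * (if a && b then 2 else 1) := by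
  cases a
  · simp only [Bool.false_and, Bool.false_eq_true, if_false]
    rcases h2 (Or.inl rfl) with h | h
    · exact ⟨1, Or.inl rfl, 0, by rw [h]; ring⟩
    · exact ⟨-1, Or.inr rfl, 0, by rw [h]; ring⟩
  · cases b
    · simp only [Bool.and_false, Bool.false_eq_true, if_false]
      rcases h2 (Or.inr rfl) with h | h
      · exact ⟨1, Or.inl rfl, 0, by rw [h]; ring⟩
      · exact ⟨-1, Or.inr rfl, 0, by rw [h]; ring⟩
    · simp only [Bool.and_self, if_true]
      rcases h1 ⟨rfl, rfl⟩ with h | h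
      · exact ⟨1, Or.inl rfl, 0, by rw [h]; ring⟩
      · exact ⟨-1, Or.inr rfl, 0, by rw [h]; ring⟩

theorem nz_one {k g I e : ℕ} : decide (N k g I e) = true ↔ nz k g I e = 1 := by
  unfold nz
  by_cases h : N k g I e
  · simp [h]
  · simp [h]

theorem nz_zero {k g I e : ℕ} : decide (N k g I e) = false ↔ nz k g I e = 0 := by
  unfold nz
  by_cases h : N k g I e
  · simp [h]
  · simp [h]

theorem tz_zero {k g I : ℕ} : decide (¬ T k g I) = true ↔ tz k g I = 0 := by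
  unfold tz
  by_cases h : T k g I
  · simp [h]
  · simp [h]

theorem tz_one {k g I : ℕ} : decide (¬ T k g I) = false ↔ tz k g I = 1 := by
  unfold tz
  by_cases h : T k g I
  · simp [h]
  · simp [h]

end Ev

open Ev in
theorem rel_even {m r k : ℕ} (hk : k % 2 = 0) (hk4 : 4 ≤ k) (hm : m % 2 = 1) (hmk : 3 * k ≤ m)
    (hr : r % 2 = 1) : Rel m r k := by
  have hk0 : 0 < k := by omega
  have hm0 : 0 < m := by omega
  obtain ⟨g, hg0⟩ : ∃ g, m % k = g := ⟨_, rfl⟩
  have hgk : g < k := by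
    rw [← hg0]
    exact Nat.mod_lt _ hk0
  have hg : g % 2 = 1 := by
    rw [← hg0, Nat.mod_mod_of_dvd _ (Nat.dvd_of_mod_eq_zero hk)]
    exact hm
  have hmg : 3 * k + g ≤ m := by
    have h1 := Nat.div_add_mod m k
    rw [hg0] at h1
    have h2 : 3 ≤ m / k := (Nat.le_div_iff_mul_le hk0).2 hmk
    have h3 : k * 3 ≤ k * (m / k) := Nat.mul_le_mul_left k h2
    omega
  have loc := fun I => E_loc (I := I) hg0 hmk hk0
  have tab : ∀ I, Tab k g I (E m k I) (G m k I) (tz k g I) (nz k g I (E m k I))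
      (X k g I (E m k I) (G m k I)) (Y k g I (E m k I) (G m k I)) := by
    intro I
    obtain ⟨l1, l2, l3⟩ := loc I
    exact table hk hk4 hg hgk (E_lt hk0) (by omega) (by omega)
  have hIm : ∀ i, i % m < m := fun i => Nat.mod_lt _ hm0
  refine engine (m := m) (r := r) (k := k) hr
    (fun i => X k g (i % m) (E m k (i % m)) (G m k (i % m)) + ((i / m : ℕ) : ℤ))
    (fun i => Y k g (i % m) (E m k (i % m)) (G m k (i % m)) + ((i / m : ℕ) : ℤ))
    (fun i => decide (N k g (i % m) (E m k (i % m)))) (fun i => decide (¬ T k g (i % m)))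
    (A := 1) isCoprime_one_left ?_ ?_ ?_ ?_ ?_ ?_ ?_
  · intro i
    refine ⟨0, ?_⟩
    simp only [Nat.add_mod_right, Nat.add_div_right i hm0]
    push_cast
    ring
  · intro i
    refine ⟨0, ?_⟩
    simp only [Nat.add_mod_right, Nat.add_div_right i hm0]
    push_cast
    ring
  · intro i
    simp only [Nat.add_mod_right]
  · intro i
    simp only [Nat.add_mod_right]
  · intro i
    have hI := hIm i
    have hd := Nat.div_add_mod i m
    show ∃ s : ℤ, (s = 1 ∨ s = -1) ∧ (r : ℤ) ∣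
      X k g ((i + 1) % m) (E m k ((i + 1) % m)) (G m k ((i + 1) % m)) + (((i + 1) / m : ℕ) : ℤ) -
        (X k g (i % m) (E m k (i % m)) (G m k (i % m)) + ((i / m : ℕ) : ℤ)) -
        s * (if decide (N k g (i % m) (E m k (i % m))) &&
          decide (N k g ((i + 1) % m) (E m k ((i + 1) % m))) then 2 else 1)
    generalize i % m = I at *
    generalize i / m = q at *
    by_cases h1 : I + 1 < m
    · obtain ⟨e1, e2⟩ := dm (n := i + 1) (k := m) (c := I + 1) (d := q) h1 (by omega)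
      rw [e1, e2]
      obtain ⟨l1, l2, l3⟩ := loc I
      obtain ⟨l1', l2', l3'⟩ := loc (I + 1)
      have hf := fact_U hk hk4 hg hgk (G_or m k I) (by omega) (by omega) l2
        (E_par hk hm hI) (EG_step hk0 h1) (tab I) (tab (I + 1))
      refine conv (fun h => ?_) (fun h => ?_)
      · have := hf.1 ⟨nz_one.1 h.1, nz_one.1 h.2⟩
        omega
      · have := hf.2 (h.imp nz_zero.1 nz_zero.1)
        omega
    · obtain ⟨e1, e2⟩ := dm (n := i + 1) (k := m) (c := 0) (d := q + 1) (by omega)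
        (by rw [mul_add, mul_one]; omega)
      rw [e1, e2]
      have hf := fact_Z hk hk4 hg hgk hm hmg (by omega)
        (by have := (EG_top (k := k) hI (by omega)).1; omega) (tab I) (tab 0)
      refine conv (fun h => ?_) (fun h => ?_)
      · have := hf.1 ⟨nz_one.1 h.1, nz_one.1 h.2⟩
        omega
      · have := hf.2 (h.imp nz_zero.1 nz_zero.1)
        omega
  · intro i
    show ∃ s : ℤ, (s = 1 ∨ s = -1) ∧ (r : ℤ) ∣
      Y k g (i % m) (E m k (i % m)) (G m k (i % m)) + ((i / m : ℕ) : ℤ) -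
        (X k g (i % m) (E m k (i % m)) (G m k (i % m)) + ((i / m : ℕ) : ℤ)) -
        s * (if decide (N k g (i % m) (E m k (i % m))) && decide (¬ T k g (i % m)) then 2 else 1)
    have hf := fact_S (G_or m k (i % m)) (tab (i % m))
    refine conv (fun h => ?_) (fun h => ?_)
    · have := hf.1 ⟨nz_one.1 h.1, tz_zero.1 h.2⟩
      omega
    · have := hf.2 (h.imp nz_zero.1 tz_one.1)
      omega
  · intro i
    have hI := hIm i
    have hd := Nat.div_add_mod i m
    show ∃ s : ℤ, (s = 1 ∨ s = -1) ∧ (r : ℤ) ∣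
      Y k g ((i + k) % m) (E m k ((i + k) % m)) (G m k ((i + k) % m)) + (((i + k) / m : ℕ) : ℤ) -
        (Y k g (i % m) (E m k (i % m)) (G m k (i % m)) + ((i / m : ℕ) : ℤ)) -
        s * (if decide (¬ T k g (i % m)) && decide (¬ T k g ((i + k) % m)) then 2 else 1)
    generalize i % m = I at *
    generalize i / m = q at *
    by_cases h1 : I + k < m
    · obtain ⟨e1, e2⟩ := dm (n := i + k) (k := m) (c := I + k) (d := q) h1 (by omega)
      rw [e1, e2]
      obtain ⟨l1, l2, l3⟩ := loc I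
      have ht := tab (I + k)
      obtain ⟨f1, f2⟩ := EG_shift hk0 h1
      rw [f1, f2] at ht ⊢
      have hf := fact_V hk hk4 hg hgk (G_or m k I) (by omega) l2 l3 l1
        (E_par hk hm hI) (tab I) ht
      refine conv (fun h => ?_) (fun h => ?_)
      · have := hf.1 ⟨tz_zero.1 h.1, tz_zero.1 h.2⟩
        omega
      · have := hf.2 (h.imp tz_one.1 tz_one.1)
        omega
    · obtain ⟨J, hJ⟩ : ∃ J, I + k = m + J := ⟨I + k - m, by omega⟩
      obtain ⟨e1, e2⟩ := dm (n := i + k) (k := m) (c := J) (d := q + 1) (by omega)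
        (by rw [mul_add, mul_one]; omega)
      rw [e1, e2]
      obtain ⟨f1, f2⟩ := EG_top (k := k) hI (by omega)
      have ht := tab I
      rw [f2] at ht ⊢
      have hf := fact_W hk hk4 hg hgk hm hmg hI hJ f1 ht (tab J)
      refine conv (fun h => ?_) (fun h => ?_)
      · have := hf.1 ⟨tz_zero.1 h.1, tz_zero.1 h.2⟩
        omega
      · have := hf.2 (h.imp tz_one.1 tz_one.1)
        omega

end Pool.Agent.Helper89.EM
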