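import Mathlib
import Pool.Agent.Helper92.EM.Even

/-!
# Relative labellings for all `k` prime to the order, when the base is large
-/

set_option autoImplicit false

namespace Pool.Agent.Helper89.EM

/-- Relative labellings depend on `k` modulo `m r` only. -/
theorem Rel.congr {m r k k' : ℕ} (hk : k ≡ k' [MOD m * r]) (h : Rel m r k) : Rel m r k' := by
  obtain ⟨p, q, hp⟩ := h
  refine ⟨p, q, hp.pp, hp.pq, hp.lp, hp.lq, hp.su, hp.sp, ?_⟩
  intro i e he
  obtain ⟨j, hj⟩ := hp.si i e he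
  exact ⟨j, by rw [← per_congr hp.pq (hk.add_left (i + m * j)), hj]⟩

theorem Rel.neg {m r k k' : ℕ} (hk : k + k' ≡ 0 [MOD m * r]) (h : Rel m r k) : Rel m r k' := by
  obtain ⟨p, q, hp⟩ := h
  refine ⟨p, q, hp.pp, hp.pq, hp.lp, hp.lq, hp.su, hp.sp, ?_⟩
  intro i e he
  obtain ⟨j, hj⟩ := hp.si (i + k') e he
  refine ⟨j, ?_⟩
  have e1 : i + k' + m * j + k ≡ i + m * j [MOD m * r] := by
    have h1 := hk.add_left (i + m * j)
    rwa [Nat.add_zero, show i + m * j + (k + k') = i + k' + m * j + k by ring] at h1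
  rw [per_congr hp.pq e1, show i + k' + m * j = i + m * j + k' by ring, Nat.add_comm] at hj
  exact hj

theorem Rel.inv {m r k k' : ℕ} (hk : k * k' ≡ 1 [MOD m * r]) (h : Rel m r k) : Rel m r k' := by
  obtain ⟨p, q, hp⟩ := h
  have key : ∀ i j : ℕ, k * (i + m * (k' * j)) ≡ k * i + m * j [MOD m * r] := by
    intro i j
    have e1 : k * (i + m * (k' * j)) = k * i + k * k' * (m * j) := by ring
    have e2 : k * k' * (m * j) ≡ 1 * (m * j) [MOD m * r] := hk.mul_right (m * j)
    rw [one_mul] at e2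
    rw [e1]
    exact e2.add_left (k * i)
  have per : ∀ {f : ℕ → ℕ}, (∀ i, f (i + m * r) = f i) → ∀ i, f (k * (i + m * r)) = f (k * i) := by
    intro f hf i
    refine per_congr hf ?_
    have : k * (i + m * r) = k * i + m * r * k := by ring
    rw [this]
    simp [Nat.ModEq]
  refine ⟨fun i => q (k * i), fun i => p (k * i), per hp.pq, per hp.pp, ?_, ?_, ?_, ?_, ?_⟩
  · intro i e he
    obtain ⟨j, hj⟩ := hp.lq (k * i) e he
    exact ⟨k' * j, by rw [per_congr hp.pq (key i j), hj]⟩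
  · intro i e he
    obtain ⟨j, hj⟩ := hp.lp (k * i) e he
    exact ⟨k' * j, by rw [per_congr hp.pp (key i j), hj]⟩
  · intro i e he
    obtain ⟨j, hj⟩ := hp.si (k * i) e he
    refine ⟨k' * j, ?_⟩
    show q (k * (i + m * (k' * j))) + q (k * (i + m * (k' * j) + 1)) = _
    rw [show k * (i + m * (k' * j) + 1) = k * (i + m * (k' * j)) + k by ring,
      per_congr hp.pq (key i j), per_congr hp.pq ((key i j).add_right k), hj]
  · intro i e he
    obtain ⟨j, hj⟩ := hp.sp (k * i) e he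
    refine ⟨k' * j, ?_⟩
    show q (k * (i + m * (k' * j))) + p (k * (i + m * (k' * j))) = _
    rw [per_congr hp.pq (key i j), per_congr hp.pp (key i j), Nat.add_comm, hj]
  · intro i e he
    obtain ⟨j, hj⟩ := hp.su (k * i) e he
    refine ⟨k' * j, ?_⟩
    show p (k * (i + m * (k' * j))) + p (k * (i + m * (k' * j) + k')) = _
    have e1 : k * (i + m * (k' * j) + k') ≡ k * i + m * j + 1 [MOD m * r] := by
      rw [show k * (i + m * (k' * j) + k') = k * (i + m * (k' * j)) + k * k' by ring]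
      exact (key i j).add hk
    rw [per_congr hp.pp (key i j), per_congr hp.pp e1, hj]

theorem Rel.one (m k : ℕ) : Rel m 1 k := by
  refine ⟨fun _ => 0, fun _ => 0, fun _ => rfl, fun _ => rfl, ?_, ?_, ?_, ?_, ?_⟩ <;>
  · intro i e he
    refine ⟨0, ?_⟩
    simp only [Nat.lt_one_iff] at he
    simp [he]

namespace Lat

/-- balanced division -/
theorem bal (a b : ℤ) (hb : b ≠ 0) : ∃ s : ℤ, 2 * |a + s * b| ≤ |b| := by
  have h1 := Int.emod_add_mul_ediv a b
  have h2 := Int.emod_nonneg a hb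
  have h3 := Int.emod_lt_abs a hb
  rcases le_or_gt (2 * (a % b)) |b| with h | h
  · refine ⟨-(a / b), ?_⟩
    have e : a + -(a / b) * b = a % b := by linear_combination -h1
    rw [e, abs_of_nonneg h2]
    exact h
  · rcases lt_or_gt_of_ne hb with hb' | hb'
    · refine ⟨-(a / b) + 1, ?_⟩
      have e : a + (-(a / b) + 1) * b = a % b + b := by linear_combination -h1
      rw [abs_of_neg hb'] at h h3 ⊢
      rw [e, abs_of_neg (by omega)]
      omega
    · refine ⟨-(a / b) - 1, ?_⟩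
      have e : a + (-(a / b) - 1) * b = a % b - b := by linear_combination -h1
      rw [abs_of_pos hb'] at h h3 ⊢
      rw [e, abs_of_neg (by omega)]
      omega

/-- pigeonhole -/
theorem dirichlet (k m r : ℕ) (hr : 0 < r) (hm : 0 < m) :
    ∃ a : ℕ, 0 < a ∧ a < 4 * r ∧ ∃ z : ℤ, 4 * |(k : ℤ) * a - m * r * z| ≤ m := by
  obtain ⟨z, a, ha0, ha1, h⟩ := Real.exists_int_int_abs_mul_sub_le ((k : ℝ) / (m * r))
    (n := 4 * r - 1) (by omega)
  obtain ⟨a', rfl⟩ : ∃ a' : ℕ, a = a' := ⟨a.toNat, by omega⟩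
  refine ⟨a', by exact_mod_cast ha0, by omega, z, ?_⟩
  have hr' : (0 : ℝ) < r := by exact_mod_cast hr
  have hm' : (0 : ℝ) < m := by exact_mod_cast hm
  have e1 : ((4 * r - 1 : ℕ) : ℝ) + 1 = 4 * r := by
    rw [Nat.cast_sub (by omega)]
    push_cast
    ring
  rw [e1] at h
  have e2 : ((a' : ℤ) : ℝ) * ((k : ℝ) / (m * r)) - z = ((k : ℝ) * a' - m * r * z) / (m * r) := by
    push_cast
    field_simp
  rw [e2, abs_div, abs_of_pos (by positivity : (0 : ℝ) < m * r), div_le_div_iff₀ (by positivity)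
    (by positivity)] at h
  have h2 : 4 * |(k : ℝ) * a' - m * r * z| ≤ m := by
    have h3 : r * (4 * |(k : ℝ) * a' - m * r * z|) ≤ r * m := by linarith
    exact le_of_mul_le_mul_left h3 hr'
  exact_mod_cast h2

/-- a primitive short vector -/
theorem short (k m r : ℕ) (hr : 0 < r) (hm : 0 < m) :
    ∃ A T z : ℤ, 0 < A ∧ A < 4 * r ∧ 4 * |T| ≤ m ∧ (k : ℤ) * A = T + m * r * z ∧
      IsCoprime A z := by
  classical
  have hex : ∃ a : ℕ, 0 < a ∧ ∃ z : ℤ, 4 * |(k : ℤ) * a - m * r * z| ≤ m := by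
    obtain ⟨a, h1, -, h2⟩ := dirichlet k m r hr hm
    exact ⟨a, h1, h2⟩
  obtain ⟨ha0, z, hz⟩ := Nat.find_spec hex
  have hmin : ∀ b : ℕ, 0 < b → (∃ z : ℤ, 4 * |(k : ℤ) * b - m * r * z| ≤ m) →
      Nat.find hex ≤ b := fun b h1 h2 => Nat.find_min' hex ⟨h1, h2⟩
  have hlt : Nat.find hex < 4 * r := by
    obtain ⟨a, h1, h3, h2⟩ := dirichlet k m r hr hm
    exact lt_of_le_of_lt (hmin a h1 h2) h3
  generalize Nat.find hex = a at *
  refine ⟨a, (k : ℤ) * a - m * r * z, z, by exact_mod_cast ha0, by exact_mod_cast hlt, hz,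
    by ring, ?_⟩
  rw [Int.isCoprime_iff_gcd_eq_one]
  by_contra hd
  set d := Int.gcd (a : ℤ) z with hd0
  have hdpos : 0 < d := Int.gcd_pos_of_ne_zero_left _ (by exact_mod_cast ha0.ne')
  obtain ⟨a', ha'⟩ : (d : ℤ) ∣ a := Int.gcd_dvd_left _ _
  obtain ⟨z', hz'⟩ : (d : ℤ) ∣ z := Int.gcd_dvd_right _ _
  have hd' : (0 : ℤ) < d := by exact_mod_cast hdpos
  have ha'0 : 0 < a' := by
    have h1 : (0 : ℤ) < d * a' := by
      rw [← ha']
      exact_mod_cast ha0
    exact (mul_pos_iff_of_pos_left hd').1 h1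
  obtain ⟨b, rfl⟩ : ∃ b : ℕ, a' = b := ⟨a'.toNat, by omega⟩
  have h1 := hmin b (by exact_mod_cast ha'0) ⟨z', by
    have e1 : (k : ℤ) * a - m * r * z = d * ((k : ℤ) * b - m * r * z') := by
      rw [ha', hz']
      ring
    rw [e1, abs_mul, abs_of_pos hd'] at hz
    have h2 : |(k : ℤ) * b - m * r * z'| ≤ d * |(k : ℤ) * b - m * r * z'| :=
      le_mul_of_one_le_left (abs_nonneg _) (by omega)
    omega⟩
  have h2 : (2 : ℤ) ≤ d := by omega
  have h3 : 2 * (b : ℤ) ≤ d * b := mul_le_mul_of_nonneg_right h2 (by omega)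
  omega

section main

variable {m r : ℕ}

/-- the network, as a hypothesis -/
def Net (m r : ℕ) : Prop := ∀ (k : ℕ) (A T z : ℤ), IsCoprime A (r : ℤ) →
  (k : ℤ) * A = T + m * r * z → A % 2 = 1 → 3 ≤ A → T % 2 = 0 → 4 ≤ T → IsCoprime A z →
  (2 * A + 4) * (T + 1) ≤ m → Rel m r k

theorem net_pos (hnet : Net m r) (hm : m % 2 = 1) (hr : r % 2 = 1) (hr3 : 3 ≤ r)
    (hmr : 40 * r ^ 2 ≤ m) {k : ℕ} {A T z : ℤ} (hA : IsCoprime A (r : ℤ))
    (hk : (k : ℤ) * A = T + m * r * z) (hA2 : A % 2 = 1) (hA0 : 0 < A) (hAr : A < 4 * r)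
    (hT4 : T % 4 = 0) (hT0 : 0 < T) (hTr : T < 4 * r) (hz : IsCoprime A z) : Rel m r k := by
  have hmr' : 40 * (r : ℤ) ^ 2 ≤ m := by exact_mod_cast hmr
  have h3r : 3 * (r : ℤ) ≤ r ^ 2 := by nlinarith
  rcases eq_or_ne A 1 with h1 | h1
  · subst h1
    rw [mul_one] at hk
    obtain ⟨t, rfl⟩ : ∃ t : ℕ, T = t := ⟨T.toNat, by omega⟩
    have h2 : Rel m r t := rel_even (by omega) (by omega) hm (by omega) hr
    refine h2.congr ?_
    rw [← Int.natCast_modEq_iff]
    rw [hk]
    push_cast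
    exact (Int.modEq_iff_dvd.2 ⟨z, by ring⟩)
  · refine hnet k A T z hA hk hA2 (by omega) (by omega) (by omega) hz ?_
    have h2 : (2 * A + 4) * (T + 1) ≤ (8 * r + 2) * (4 * r) := by
      refine mul_le_mul (by omega) (by omega) (by omega) (by omega)
    nlinarith

theorem net_any (hnet : Net m r) (hm : m % 2 = 1) (hr : r % 2 = 1) (hr3 : 3 ≤ r)
    (hmr : 40 * r ^ 2 ≤ m) {k : ℕ} {A T z : ℤ} (hA : IsCoprime A (r : ℤ))
    (hk : (k : ℤ) * A = T + m * r * z) (hA2 : A % 2 = 1) (hA0 : 0 < A) (hAr : A < 4 * r)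
    (hT4 : T % 4 = 0) (hT0 : T ≠ 0) (hTr : |T| < 4 * r) (hz : IsCoprime A z) : Rel m r k := by
  rcases lt_or_gt_of_ne hT0 with h | h
  · rw [abs_of_neg h] at hTr
    have hN : 1 ≤ m * r := Nat.mul_pos (by omega) (by omega)
    have h1 : Rel m r ((m * r - 1) * k) := by
      refine net_pos hnet hm hr hr3 hmr (A := A) (T := -T) (z := k * A - z) hA ?_ hA2 hA0 hAr
        (by omega) (by omega) hTr ?_
      · push_cast [Nat.cast_sub hN]
        linear_combination -hk
      · have e1 : (k : ℤ) * A - z = -(z + A * (-k)) := by ring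
        rw [e1]
        exact (hz.add_mul_left_right (-k)).neg_right
    refine h1.neg ?_
    have e2 : (m * r - 1) * k + k = m * r * k := by
      obtain ⟨n, hn⟩ : ∃ n, m * r = n + 1 := ⟨m * r - 1, by omega⟩
      rw [hn, Nat.add_sub_cancel]
      ring
    rw [e2]
    simp [Nat.ModEq]
  · rw [abs_of_pos h] at hTr
    exact net_pos hnet hm hr hr3 hmr hA hk hA2 hA0 hAr hT4 h hTr hz

/-- Case II. -/
theorem caseII (hnet : Net m r) (hm : m % 2 = 1) (hr : r.Prime) (hr2 : r % 2 = 1)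
    (hmr : 40 * r ^ 2 ≤ m) {k : ℕ} (hkN : Nat.Coprime k (m * r)) {A T z : ℤ}
    (hA : ¬ (r : ℤ) ∣ A) (hk : (k : ℤ) * A = T + m * r * z) (hA0 : 0 < A) (hAr : A < 4 * r)
    (hT0 : T ≠ 0) (hTr : |T| < 4 * r) (hz : IsCoprime A z)
    (hev : ¬ (A % 2 = 0 ∧ T % 2 = 0)) : Rel m r k := by
  have hr3 : 3 ≤ r := by
    have := hr.two_le
    omega
  have hrI : Prime (r : ℤ) := Nat.prime_iff_prime_int.1 hr
  have hcop : ∀ {B : ℤ}, ¬ (r : ℤ) ∣ B → IsCoprime B (r : ℤ) := fun {B} h =>
    (hrI.irreducible.coprime_iff_not_dvd.2 h).symm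
  have hmr' : 40 * (r : ℤ) ^ 2 ≤ m := by exact_mod_cast hmr
  have h3r : 3 * (r : ℤ) ≤ r ^ 2 := by nlinarith
  have hAabs : |A| = A := abs_of_pos hA0
  by_cases hA2 : A % 2 = 1
  · by_cases hT2 : T % 2 = 1
    · exact rel_one hm hr2 (hcop hA) hk hA2 hT2 (by omega) (by omega)
    by_cases hT4 : T % 4 = 2
    · exact rel_two hm hr2 (hcop hA) hk hA2 hT4 (by omega) (by omega)
    · exact net_any hnet hm hr2 hr3 hmr (hcop hA) hk hA2 hA0 hAr (by omega) hT0 hTr hz
  have hT2 : T % 2 = 1 := by omega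
  by_cases hA4 : A % 4 = 2
  · exact rel_half hm hr2 (hcop hA) hk hA4 hT2 (by omega) (by omega)
  -- the inverse
  have hA4' : A % 4 = 0 := by omega
  have hN1 : 1 < m * r := by
    have h1 : 1 * 3 ≤ m * r := Nat.mul_le_mul (by omega) hr3
    omega
  obtain ⟨k', -, hk'⟩ := Nat.exists_mul_mod_eq_one_of_coprime hkN hN1
  have hkk : k' * k ≡ 1 [MOD m * r] := by
    show k' * k % (m * r) = 1 % (m * r)
    rw [mul_comm k' k, hk', Nat.mod_eq_of_lt hN1]
  obtain ⟨t, ht⟩ : ∃ t : ℤ, (k : ℤ) * k' = 1 + m * r * t := by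
    have h1 := Nat.div_add_mod (k * k') (m * r)
    rw [hk'] at h1
    refine ⟨((k * k' / (m * r) : ℕ) : ℤ), ?_⟩
    have h2 : ((m * r * (k * k' / (m * r)) + 1 : ℕ) : ℤ) = ((k * k' : ℕ) : ℤ) := by rw [h1]
    push_cast at h2
    push_cast
    linear_combination -h2
  have hk1 : (k' : ℤ) * T = A + m * r * (t * A - k' * z) := by
    linear_combination A * ht - (k' : ℤ) * hk
  have hz1 : IsCoprime T (t * A - k' * z) := by
    obtain ⟨a, b, hab⟩ := hz
    refine ⟨a * k' + b * t, -(a * m * r) - b * k, ?_⟩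
    linear_combination a * hk1 + b * (-t * hk + z * ht) + hab
  have hrT : ¬ (r : ℤ) ∣ T := by
    intro h
    have h1 : (r : ℤ) ∣ (k : ℤ) * A := by
      rw [hk]
      exact dvd_add h ⟨m * z, by ring⟩
    rcases hrI.dvd_or_dvd h1 with h2 | h2
    · have h3 : r ∣ k := by exact_mod_cast h2
      have h4 : Nat.Coprime k r := Nat.Coprime.coprime_mul_left_right hkN
      have h5 := Nat.Coprime.eq_one_of_dvd h4.symm h3
      omega
    · exact hA h2
  have h1 : Rel m r k' := by
    rcases lt_or_gt_of_ne hT0 with h | h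
    · rw [abs_of_neg h] at hTr
      refine net_any hnet hm hr2 hr3 hmr (A := -T) (T := -A) (z := -(t * A - k' * z))
        (hcop hrT).neg_left ?_ (by omega) (by omega) hTr (by omega) (by omega) ?_
        hz1.neg_neg
      · linear_combination -hk1
      · rw [abs_neg, hAabs]
        exact hAr
    · rw [abs_of_pos h] at hTr
      exact net_any hnet hm hr2 hr3 hmr (hcop hrT) hk1 hT2 h hTr hA4' hA0.ne'
        (by rw [hAabs]; exact hAr) hz1
  exact h1.inv hkk

/-- Case I. -/
theorem caseI (hm : m % 2 = 1) (hr : r.Prime) (hr2 : r % 2 = 1)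
    (hmr : 40 * r ^ 2 ≤ m) {k : ℕ} {A T z A' T' z' : ℤ}
    (hk : (k : ℤ) * A = T + m * r * z) (hk' : (k : ℤ) * A' = T' + m * r * z')
    (hdet : A * T' - A' * T = m * r) (hz : A' * z - A * z' = 1) (hA0 : 0 < A) (hAr : A < 4 * r)
    (hT : 4 * |T| ≤ m) (hTr : 4 * r ≤ |T|) (hT' : 2 * |T'| ≤ |T|) : Rel m r k := by
  have hr3 : 3 ≤ r := by
    have := hr.two_le
    omega
  have hrI : Prime (r : ℤ) := Nat.prime_iff_prime_int.1 hr
  have hcop : ∀ {B : ℤ}, ¬ (r : ℤ) ∣ B → IsCoprime B (r : ℤ) := fun {B} h =>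
    (hrI.irreducible.coprime_iff_not_dvd.2 h).symm
  have hmr' : 40 * (r : ℤ) ^ 2 ≤ m := by exact_mod_cast hmr
  have h3r : 3 * (r : ℤ) ≤ r ^ 2 := by nlinarith
  have hA' : 4 * |A'| ≤ 2 * A + m := by
    have hTpos : 0 < |T| := by omega
    have h1 : |A'| * |T| ≤ A * |T'| + m * r := by
      rw [← abs_mul]
      have e1 : A' * T = A * T' - m * r := by linear_combination -hdet
      rw [e1]
      have h2 := abs_sub (A * T') ((m : ℤ) * r)
      rw [abs_mul, abs_of_pos hA0, abs_of_nonneg (by positivity : (0 : ℤ) ≤ (m : ℤ) * r)] at h2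
      exact h2
    have h2 : (4 * |A'|) * |T| ≤ (2 * A + m) * |T| := by
      have h3 : (2 * A) * (2 * |T'|) ≤ (2 * A) * |T| := mul_le_mul_of_nonneg_left hT' (by omega)
      have h4 : (m : ℤ) * (4 * r) ≤ m * |T| := mul_le_mul_of_nonneg_left hTr (by omega)
      nlinarith
    exact le_of_mul_le_mul_right h2 hTpos
  -- the odd vector
  have hpar : (A * T' - A' * T) % 2 = 1 := by
    rw [hdet]
    obtain ⟨a, rfl⟩ : ∃ a, m = 2 * a + 1 := ⟨m / 2, by omega⟩
    obtain ⟨b, rfl⟩ : ∃ b, r = 2 * b + 1 := ⟨r / 2, by omega⟩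
    have e1 : ((2 * a + 1 : ℕ) : ℤ) * ((2 * b + 1 : ℕ) : ℤ) = 1 + 2 * (2 * a * b + a + b) := by
      push_cast
      ring
    rw [e1, Int.add_mul_emod_self_left]
    rfl
  obtain ⟨α, β, hα, hβ, h1, h2⟩ : ∃ α β : ℤ, (α = 0 ∨ α = 1) ∧ (β = 0 ∨ β = 1) ∧
      (α * A + β * A') % 2 = 1 ∧ (α * T + β * T') % 2 = 1 := by
    rcases Int.emod_two_eq_zero_or_one A with a1 | a1 <;>
    rcases Int.emod_two_eq_zero_or_one T with a2 | a2 <;>
    rcases Int.emod_two_eq_zero_or_one A' with a3 | a3 <;>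
    rcases Int.emod_two_eq_zero_or_one T' with a4 | a4 <;>
    first
    | (exfalso
       rw [Int.sub_emod, Int.mul_emod, Int.mul_emod A', a1, a2, a3, a4] at hpar
       revert hpar
       norm_num
       done)
    | exact ⟨1, 0, Or.inr rfl, Or.inl rfl, by omega, by omega⟩
    | exact ⟨0, 1, Or.inl rfl, Or.inr rfl, by omega, by omega⟩
    | exact ⟨1, 1, Or.inr rfl, Or.inr rfl, by omega, by omega⟩
  have fin : ∀ a b : ℤ, 0 ≤ a → 0 ≤ b → a + b ≤ 4 → a ≤ 3 → b ≤ 3 →
      ¬ (r : ℤ) ∣ a * A + b * A' → (a * A + b * A') % 2 = 1 → (a * T + b * T') % 2 = 1 →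
      Rel m r k := by
    intro a b ha hb hab ha3 hb3 hdvd hodd1 hodd2
    refine rel_one (A := a * A + b * A') (T := a * T + b * T') (z := a * z + b * z') hm hr2
      (hcop hdvd) (by linear_combination a * hk + b * hk') hodd1 hodd2 ?_ ?_
    · have e1 := abs_add_le (a * A) (b * A')
      rw [abs_mul, abs_mul, abs_of_nonneg ha, abs_of_nonneg hb, abs_of_pos hA0] at e1
      have e2 : a * A + b * |A'| ≤ m := by
        have ha' : a = 0 ∨ a = 1 ∨ a = 2 ∨ a = 3 := by omega
        have hb' : b = 0 ∨ b = 1 ∨ b = 2 ∨ b = 3 := by omega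
        rcases ha' with rfl | rfl | rfl | rfl <;> rcases hb' with rfl | rfl | rfl | rfl <;> omega
      omega
    · have e1 := abs_add_le (a * T) (b * T')
      rw [abs_mul, abs_mul, abs_of_nonneg ha, abs_of_nonneg hb] at e1
      have e2 : a * |T| + b * |T'| ≤ m := by
        have ha' : a = 0 ∨ a = 1 ∨ a = 2 ∨ a = 3 := by omega
        have hb' : b = 0 ∨ b = 1 ∨ b = 2 ∨ b = 3 := by omega
        rcases ha' with rfl | rfl | rfl | rfl <;> rcases hb' with rfl | rfl | rfl | rfl <;> omega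
      omega
  by_cases hd : (r : ℤ) ∣ α * A + β * A'
  · have hr2' : ¬ (r : ℤ) ∣ 2 := by
      intro h
      have := Int.le_of_dvd (by norm_num) h
      omega
    by_cases hdA : (r : ℤ) ∣ A
    · have hdA' : ¬ (r : ℤ) ∣ A' := by
        intro h
        have h3 : (r : ℤ) ∣ 1 := by
          rw [← hz]
          exact dvd_sub (h.mul_right z) (hdA.mul_right z')
        have := Int.le_of_dvd (by norm_num) h3
        omega
      refine fin α (β + 2) (by omega) (by omega) (by omega) (by omega) (by omega) ?_ ?_ ?_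
      · intro h
        have h3 : (r : ℤ) ∣ 2 * A' := by
          have e1 : 2 * A' = (α * A + (β + 2) * A') - (α * A + β * A') := by ring
          rw [e1]
          exact dvd_sub h hd
        rcases hrI.dvd_or_dvd h3 with h4 | h4
        · exact hr2' h4
        · exact hdA' h4
      · have e1 : α * A + (β + 2) * A' = α * A + β * A' + 2 * A' := by ring
        omega
      · have e1 : α * T + (β + 2) * T' = α * T + β * T' + 2 * T' := by ring
        omega
    · refine fin (α + 2) β (by omega) (by omega) (by omega) (by omega) (by omega) ?_ ?_ ?_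
      · intro h
        have h3 : (r : ℤ) ∣ 2 * A := by
          have e1 : 2 * A = ((α + 2) * A + β * A') - (α * A + β * A') := by ring
          rw [e1]
          exact dvd_sub h hd
        rcases hrI.dvd_or_dvd h3 with h4 | h4
        · exact hr2' h4
        · exact hdA h4
      · have e1 : (α + 2) * A + β * A' = α * A + β * A' + 2 * A := by ring
        omega
      · have e1 : (α + 2) * T + β * T' = α * T + β * T' + 2 * T := by ring
        omega
  · exact fin α β (by omega) (by omega) (by omega) (by omega) (by omega) hd h1 h2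

/-- Case III. -/
theorem caseIII (hm : m % 2 = 1) (hr : r.Prime) (hr2 : r % 2 = 1)
    (hmr : 40 * r ^ 2 ≤ m) {k : ℕ} {A T z A' T' z' : ℤ}
    (hk : (k : ℤ) * A = T + m * r * z) (hk' : (k : ℤ) * A' = T' + m * r * z')
    (hdet : A * T' - A' * T = m * r) (hz : A' * z - A * z' = 1) (hA0 : 0 < A) (hAr : A < 4 * r)
    (hT0 : T ≠ 0) (hTr : |T| < 4 * r) (hd : (r : ℤ) ∣ A) : Rel m r k := by
  have hr3 : 3 ≤ r := by
    have := hr.two_le
    omega
  have hrpos : (0 : ℤ) < r := by omega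
  have hrI : Prime (r : ℤ) := Nat.prime_iff_prime_int.1 hr
  have hcop : ∀ {B : ℤ}, ¬ (r : ℤ) ∣ B → IsCoprime B (r : ℤ) := fun {B} h =>
    (hrI.irreducible.coprime_iff_not_dvd.2 h).symm
  have hmr' : 40 * (r : ℤ) ^ 2 ≤ m := by exact_mod_cast hmr
  have h3r : 3 * (r : ℤ) ≤ r ^ 2 := by nlinarith
  -- parity of the determinant
  have hpar : (A * T' - A' * T) % 2 = 1 := by
    rw [hdet]
    obtain ⟨a, rfl⟩ : ∃ a, m = 2 * a + 1 := ⟨m / 2, by omega⟩
    obtain ⟨b, rfl⟩ : ∃ b, r = 2 * b + 1 := ⟨r / 2, by omega⟩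
    have e1 : ((2 * a + 1 : ℕ) : ℤ) * ((2 * b + 1 : ℕ) : ℤ) = 1 + 2 * (2 * a * b + a + b) := by
      push_cast
      ring
    rw [e1, Int.add_mul_emod_self_left]
    rfl
  have hdT : (r : ℤ) ∣ T := by
    have e1 : T = (k : ℤ) * A - m * r * z := by linear_combination -hk
    rw [e1]
    exact dvd_sub (hd.mul_left _) ⟨m * z, by ring⟩
  obtain ⟨a, ha⟩ := hd
  obtain ⟨t, ht⟩ := hdT
  have ha0 : 0 < a := by
    rw [ha] at hA0
    exact (mul_pos_iff_of_pos_left hrpos).1 hA0
  have ha4 : a < 4 := by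
    rw [ha, mul_comm] at hAr
    exact lt_of_mul_lt_mul_right hAr hrpos.le
  have ht0 : t ≠ 0 := by
    rintro rfl
    rw [mul_zero] at ht
    exact hT0 ht
  have ht4 : |t| < 4 := by
    rw [ht, abs_mul, abs_of_pos hrpos, mul_comm] at hTr
    exact lt_of_mul_lt_mul_right hTr hrpos.le
  have hdet' : a * T' - A' * t = m := by
    have h1 : (r : ℤ) * (a * T' - A' * t) = r * m := by
      rw [ha, ht] at hdet
      linear_combination hdet
    exact mul_left_cancel₀ hrpos.ne' h1
  have hnd : ¬ (r : ℤ) ∣ A' := by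
    intro h
    have h3 : (r : ℤ) ∣ 1 := by
      rw [← hz]
      refine dvd_sub (h.mul_right z) (Dvd.dvd.mul_right ?_ z')
      rw [ha]
      exact dvd_mul_right _ _
    have := Int.le_of_dvd (by norm_num) h3
    omega
  -- the quantity to be made small
  have hb0 : 2 * (r * (a * t)) ≠ 0 := by
    have h1 : a * t ≠ 0 := mul_ne_zero ha0.ne' ht0
    have h2 : (r : ℤ) * (a * t) ≠ 0 := mul_ne_zero hrpos.ne' h1
    omega
  have hb1 : |2 * (r * (a * t))| ≤ 18 * r := by
    have h1 : |a * t| ≤ 9 := by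
      rw [abs_mul, abs_of_pos ha0]
      have h2 : |t| ≤ 3 := by omega
      have h3 : a ≤ 3 := by omega
      calc a * |t| ≤ 3 * 3 := mul_le_mul h3 h2 (abs_nonneg _) (by norm_num)
        _ = 9 := by norm_num
    have h4 : |2 * (r * (a * t))| = 2 * (r * |a * t|) := by
      rw [abs_mul, abs_mul, abs_of_pos hrpos]
      rfl
    rw [h4]
    have h5 : (r : ℤ) * |a * t| ≤ r * 9 := mul_le_mul_of_nonneg_left h1 hrpos.le
    omega
  obtain ⟨s, hs⟩ := bal (t * A' + a * T') (2 * (r * (a * t))) hb0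
  set B := A' + s * A with hB
  set U := T' + s * T with hU
  set y := z' + s * z with hy
  have hkB : (k : ℤ) * B = U + m * r * y := by
    rw [hB, hU, hy]
    linear_combination hk' + s * hk
  have hparB : (A * U - B * T) % 2 = 1 := by
    have e1 : A * U - B * T = A * T' - A' * T := by
      rw [hB, hU]
      ring
    rw [e1]
    exact hpar
  have hD0 : t * B + a * U = t * A' + a * T' + s * (2 * (r * (a * t))) := by
    rw [hB, hU, ha, ht]
    ring
  have hdB : a * U - B * t = m := by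
    rw [hB, hU]
    have e1 : a * (T' + s * T) - (A' + s * A) * t = (a * T' - A' * t) + s * (a * T - A * t) := by
      ring
    rw [e1, hdet', ha, ht]
    ring
  -- choice of the step
  obtain ⟨i, hi0, hi3, hodd⟩ : ∃ i : ℤ, 0 ≤ i ∧ i ≤ 3 ∧ (B + i * A) % 2 = 1 ∧
      ((U + i * T) % 2 = 1 ∨ (U + i * T) % 4 = 2) := by
    have hA01 := Int.emod_two_eq_zero_or_one A
    have hT01 := Int.emod_two_eq_zero_or_one T
    have hB01 := Int.emod_two_eq_zero_or_one B
    have hU01 := Int.emod_two_eq_zero_or_one U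
    rcases hA01 with a1 | a1 <;> rcases hT01 with a2 | a2 <;> rcases hB01 with a3 | a3 <;>
      rcases hU01 with a4 | a4 <;>
    first
    | (exfalso
       rw [Int.sub_emod, Int.mul_emod, Int.mul_emod B, a1, a2, a3, a4] at hparB
       revert hparB
       norm_num
       done)
    | exact ⟨0, by norm_num, by norm_num, by omega, Or.inl (by omega)⟩
    | exact ⟨1, by norm_num, by norm_num, by omega, Or.inl (by omega)⟩
    | (have h0 : (U + 0 * T) % 4 = 2 ∨ (U + 2 * T) % 4 = 2 := by omega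
       rcases h0 with h | h
       · exact ⟨0, by norm_num, by norm_num, by omega, Or.inr h⟩
       · exact ⟨2, by norm_num, by norm_num, by omega, Or.inr h⟩)
    | (have h0 : (U + 1 * T) % 4 = 2 ∨ (U + 3 * T) % 4 = 2 := by omega
       rcases h0 with h | h
       · exact ⟨1, by norm_num, by norm_num, by omega, Or.inr h⟩
       · exact ⟨3, by norm_num, by norm_num, by omega, Or.inr h⟩)
  -- the bounds
  have hD : |t * (B + i * A) + a * (U + i * T)| ≤ 63 * r := by
    have e1 : t * (B + i * A) + a * (U + i * T) =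
        (t * A' + a * T' + s * (2 * (r * (a * t)))) + i * (2 * (r * (a * t))) := by
      rw [← hD0, ha, ht]
      ring
    rw [e1]
    have h1 := abs_add_le (t * A' + a * T' + s * (2 * (r * (a * t)))) (i * (2 * (r * (a * t))))
    rw [abs_mul i, abs_of_nonneg hi0] at h1
    have h2 : i * |2 * (r * (a * t))| ≤ 3 * (18 * r) :=
      mul_le_mul hi3 hb1 (abs_nonneg _) (by norm_num)
    omega
  have hdBi : a * (U + i * T) - (B + i * A) * t = m := by
    have e1 : a * (U + i * T) - (B + i * A) * t = (a * U - B * t) + i * (a * T - A * t) := by ring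
    rw [e1, hdB, ha, ht]
    ring
  obtain ⟨hD1, hD2⟩ := abs_le.1 hD
  have hBm : |B + i * A| ≤ m := by
    have h1 : |(B + i * A) * t| * 2 ≤ 63 * r + m := by
      rw [← abs_two (α := ℤ), ← abs_mul, abs_le]
      constructor <;> nlinarith
    have h2 : |B + i * A| ≤ |(B + i * A) * t| := by
      rw [abs_mul]
      exact le_mul_of_one_le_right (abs_nonneg _) (Int.one_le_abs ht0)
    omega
  have hUm : |U + i * T| ≤ m := by
    have h1 : |a * (U + i * T)| * 2 ≤ 63 * r + m := by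
      rw [← abs_two (α := ℤ), ← abs_mul, abs_le]
      constructor <;> nlinarith
    have h2 : |U + i * T| ≤ |a * (U + i * T)| := by
      rw [abs_mul, abs_of_pos ha0]
      exact le_mul_of_one_le_left (abs_nonneg _) (by omega)
    omega
  have hndB : ¬ (r : ℤ) ∣ B + i * A := by
    intro h
    apply hnd
    have e1 : A' = (B + i * A) - r * ((s + i) * a) := by
      rw [hB, ha]
      ring
    rw [e1]
    exact dvd_sub h (dvd_mul_right _ _)
  have hkBi : (k : ℤ) * (B + i * A) = (U + i * T) + m * r * (y + i * z) := by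
    linear_combination hkB + i * hk
  rcases hodd.2 with h | h
  · exact rel_one hm hr2 (hcop hndB) hkBi hodd.1 h hBm hUm
  · exact rel_two hm hr2 (hcop hndB) hkBi hodd.1 h hBm (by omega)

end main

end Lat

section final

open Pool.Agent.Helper89.EM.Lat

/-- All `k` prime to `m r`, `r` an odd prime, `m` large. -/
theorem rel_prime {m r k : ℕ} (hnet : Net m r) (hr : r.Prime) (hr2 : r % 2 = 1) (hm : m % 2 = 1)
    (hmr : 40 * r ^ 2 ≤ m) (hkN : Nat.Coprime k (m * r)) : Rel m r k := by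
  have hr3 : 3 ≤ r := by
    have := hr.two_le
    omega
  have hmr' : 40 * (r : ℤ) ^ 2 ≤ m := by exact_mod_cast hmr
  have h3r : 3 * (r : ℤ) ≤ r ^ 2 := by nlinarith
  obtain ⟨A, T, z, hA0, hAr, hT, hk, hz⟩ := short k m r (by omega) (by omega)
  have hT0 : T ≠ 0 := by
    rintro rfl
    rw [zero_add] at hk
    have h1 : ((m * r : ℕ) : ℤ) ∣ (k : ℤ) * A := by
      rw [hk]
      push_cast
      exact dvd_mul_right _ _
    have h2 : IsCoprime ((m * r : ℕ) : ℤ) (k : ℤ) := Nat.isCoprime_iff_coprime.2 hkN.symm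
    have h3 := Int.le_of_dvd hA0 (h2.dvd_of_dvd_mul_left h1)
    push_cast at h3
    have h4 : 4 * (r : ℤ) ≤ m * r := by
      refine mul_le_mul_of_nonneg_right ?_ (by omega)
      omega
    omega
  obtain ⟨b, c, hbc⟩ : ∃ b c : ℤ, b * z - A * c = 1 := by
    obtain ⟨u, v, huv⟩ := hz
    exact ⟨v, -u, by linear_combination huv⟩
  obtain ⟨s, hs⟩ := bal ((k : ℤ) * b - m * r * c) T hT0
  have hk' : (k : ℤ) * (b + s * A) = ((k : ℤ) * b - m * r * c + s * T) + m * r * (c + s * z) := by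
    linear_combination s * hk
  have hz' : (b + s * A) * z - A * (c + s * z) = 1 := by linear_combination hbc
  have hdet : A * ((k : ℤ) * b - m * r * c + s * T) - (b + s * A) * T = m * r := by
    linear_combination (m : ℤ) * r * hbc + b * hk
  rcases lt_or_ge |T| (4 * r) with hTr | hTr
  · by_cases hd : (r : ℤ) ∣ A
    · exact caseIII hm hr hr2 hmr hk hk' hdet hz' hA0 hAr hT0 hTr hd
    · refine caseII hnet hm hr hr2 hmr hkN hd hk hA0 hAr hT0 hTr hz ?_
      rintro ⟨h1, h2⟩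
      have h3 : (2 : ℤ) ∣ m * r := by
        rw [← hdet]
        exact dvd_sub (Dvd.dvd.mul_right (Int.dvd_of_emod_eq_zero h1) _)
          (Dvd.dvd.mul_left (Int.dvd_of_emod_eq_zero h2) _)
      rcases Int.prime_two.dvd_or_dvd h3 with h4 | h4 <;> omega
  · exact caseI hm hr hr2 hmr hk hk' hdet hz' hA0 hAr hT hTr hs

/-- All `k` prime to `m s`, `s` odd, `m` large. -/
theorem rel_universal {k : ℕ} (s : ℕ) (hs : s % 2 = 1) :
    ∀ {m : ℕ}, (∀ m' r : ℕ, m' % 2 = 1 → r % 2 = 1 → Net m' r) → m % 2 = 1 → 40 * s ^ 2 ≤ m →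
      Nat.Coprime k (m * s) → Rel m s k := by
  induction s using Nat.recOnMul with
  | zero => omega
  | one =>
    intro m _ _ _ _
    exact Rel.one m k
  | prime p hp =>
    intro m hnet hm hmr hk
    exact rel_prime (hnet m p hm hs) hp hs hm hmr hk
  | mul a b iha ihb =>
    intro m hnet hm hmr hk
    have ha : a % 2 = 1 := by
      rcases Nat.mod_two_eq_zero_or_one a with h | h
      · rw [Nat.mul_mod, h] at hs
        simp at hs
      · exact h
    have hb : b % 2 = 1 := by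
      rcases Nat.mod_two_eq_zero_or_one b with h | h
      · rw [Nat.mul_mod, h] at hs
        simp at hs
      · exact h
    have ha1 : 1 ≤ a := by omega
    have hb1 : 1 ≤ b := by omega
    have h1 : 40 * a ^ 2 ≤ m := by
      refine le_trans ?_ hmr
      exact Nat.mul_le_mul_left _ (Nat.pow_le_pow_left (Nat.le_mul_of_pos_right a hb1) 2)
    have h2 : 40 * b ^ 2 ≤ m * a := by
      have h3 : 40 * b ^ 2 ≤ m := by
        refine le_trans ?_ hmr
        exact Nat.mul_le_mul_left _ (Nat.pow_le_pow_left (Nat.le_mul_of_pos_left b ha1) 2)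
      exact h3.trans (Nat.le_mul_of_pos_right m ha1)
    have hma : (m * a) % 2 = 1 := by
      rw [Nat.mul_mod, hm, ha]
    have hk1 : Nat.Coprime k (m * a) := by
      refine Nat.Coprime.coprime_dvd_right ?_ hk
      exact ⟨b, by ring⟩
    have hk2 : Nat.Coprime k (m * a * b) := by
      rwa [mul_assoc]
    exact Rel.comp ha hb (iha ha hnet hm h1 hk1) (ihb hb hnet hma h2 hk2)

end final

end Pool.Agent.Helper89.EM
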