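import Mathlib
import Pool.Agent.Helper89.EM.Dom

/-!
# Relative labellings from labelled L-shaped domains, the rims exchanged
-/

set_option autoImplicit false

namespace Pool.Agent.Helper89.EM

theorem rel_dom_swap {m r k : ℕ} {A T o τ c s n : ℤ} (hr : r % 2 = 1) (hTr : IsCoprime T (r : ℤ))
    (hA0 : 0 < A) (hT : 0 < T) (hτ : 1 ≤ τ) (hτT : τ < T) (hc : 0 < c)
    (hm : τ * A + c * T = m) (hk1 : s * T + n * τ = 1) (hk2 : s * A - n * c = k)
    (hrn : (r : ℤ) ∣ n) (X Y : ℤ → ℤ → ℤ) (α β : ℤ → ℤ → Bool)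
    (hu1 : ∀ i b, Dm A T o τ c i b → Dm A T o τ c (i + 1) b →
      Ed (α i b) (α (i + 1) b) (X (i + 1) b - X i b))
    (hu2 : ∀ b, 0 ≤ b → b < c → Ed (α (o + T - 1) b) (α o (b + A)) (X o (b + A) - X (o + T - 1) b))
    (hu3 : ∀ b, c ≤ b → b < c + A →
      Ed (α (o + τ - 1) b) (α o (b - c)) (X o (b - c) + 1 - X (o + τ - 1) b))
    (hs : ∀ i b, Dm A T o τ c i b → Ed (α i b) (β i b) (Y i b - X i b))
    (hv1 : ∀ i b, Dm A T o τ c i b → Dm A T o τ c i (b + 1) →
      Ed (β i b) (β i (b + 1)) (Y i (b + 1) - Y i b))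
    (hv2 : ∀ i, o + τ ≤ i → i < o + T →
      Ed (β i (c - 1)) (β (i - τ) 0) (Y (i - τ) 0 + 1 - Y i (c - 1)))
    (hv3 : ∀ i, o ≤ i → i < o + τ →
      Ed (β i (c + A - 1)) (β (i - τ + T) 0) (Y (i - τ + T) 0 + 1 - Y i (c + A - 1))) :
    Rel m r k := by
  classical
  choose ri rb rn hD rs hrx hry using fun x y => dm_exists (o := o) hA0 hT hτ hτT hc x y
  -- uniqueness
  have huniq : ∀ x y i b s n : ℤ, Dm A T o τ c i b → x = i + s * T + n * τ →
      y = b - s * A + n * c → ri x y = i ∧ rb x y = b ∧ rn x y = n := by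
    intro x y i b s n h1 h2 h3
    have h4 := dm_uniq (s := rs x y - s) (n := rn x y - n) hA0 hT hτ hc h1 (hD x y)
      (by linear_combination h2.symm.trans (hrx x y)) (by linear_combination h3.symm.trans (hry x y))
    have h5 : rs x y = s := by linarith [h4.1]
    have h6 : rn x y = n := by linarith [h4.2]
    have h7 := hrx x y
    have h8 := hry x y
    rw [h5, h6] at h7 h8
    exact ⟨by linarith, by linarith, h6⟩
  -- u-steps
  have hU : ∀ x y : ℤ, Ed (α (ri x y) (rb x y)) (α (ri (x + 1) y) (rb (x + 1) y))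
      (X (ri (x + 1) y) (rb (x + 1) y) + rn (x + 1) y - (X (ri x y) (rb x y) + rn x y)) := by
    intro x y
    have h1 := hD x y
    have h2 := hrx x y
    have h3 := hry x y
    set i := ri x y with hi
    set b := rb x y with hb
    set N := rn x y with hN
    set S := rs x y with hS
    by_cases h4 : i = o + T - 1
    · have h5 : b < c := by
        obtain ⟨_, _, _, h | h⟩ := h1 <;> omega
      have h5' : 0 ≤ b := h1.2.2.1
      obtain ⟨e1, e2, e3⟩ := huniq (x + 1) y o (b + A) (S + 1) N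
        ⟨le_refl _, by omega, by omega, Or.inr ⟨by omega, by omega⟩⟩
        (by rw [h2, h4]; ring) (by rw [h3]; ring)
      rw [e1, e2, e3, h4]
      have := hu2 b h5' h5
      rwa [show X o (b + A) + N - (X (o + T - 1) b + N) = X o (b + A) - X (o + T - 1) b by ring]
    · by_cases h5 : Dm A T o τ c (i + 1) b
      · obtain ⟨e1, e2, e3⟩ := huniq (x + 1) y (i + 1) b S N h5 (by rw [h2]; ring) h3
        rw [e1, e2, e3]
        have := hu1 i b h1 h5
        rwa [show X (i + 1) b + N - (X i b + N) = X (i + 1) b - X i b by ring]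
      · obtain ⟨g1, g2, g3, g4⟩ := h1
        have h6 : i = o + τ - 1 ∧ c ≤ b ∧ b < c + A := by
          by_contra h7
          apply h5
          refine ⟨by omega, by omega, g3, ?_⟩
          rcases g4 with g4 | ⟨g4, g5⟩
          · exact Or.inl g4
          · by_cases h8 : b < c
            · exact Or.inl h8
            · exact Or.inr ⟨by omega, g5⟩
        obtain ⟨h6, h7, h8⟩ := h6
        obtain ⟨e1, e2, e3⟩ := huniq (x + 1) y o (b - c) S (N + 1)
          ⟨le_refl _, by omega, by omega, Or.inr ⟨by omega, by omega⟩⟩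
          (by rw [h2, h6]; ring) (by rw [h3]; ring)
        rw [e1, e2, e3, h6]
        have := hu3 b h7 h8
        rwa [show X o (b - c) + (N + 1) - (X (o + τ - 1) b + N) =
          X o (b - c) + 1 - X (o + τ - 1) b by ring]
  -- v-steps
  have hV : ∀ x y : ℤ, Ed (β (ri x y) (rb x y)) (β (ri x (y + 1)) (rb x (y + 1)))
      (Y (ri x (y + 1)) (rb x (y + 1)) + rn x (y + 1) - (Y (ri x y) (rb x y) + rn x y)) := by
    intro x y
    have h1 := hD x y
    have h2 := hrx x y
    have h3 := hry x y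
    set i := ri x y with hi
    set b := rb x y with hb
    set N := rn x y with hN
    set S := rs x y with hS
    by_cases h5 : Dm A T o τ c i (b + 1)
    · obtain ⟨e1, e2, e3⟩ := huniq x (y + 1) i (b + 1) S N h5 h2 (by rw [h3]; ring)
      rw [e1, e2, e3]
      have := hv1 i b h1 h5
      rwa [show Y i (b + 1) + N - (Y i b + N) = Y i (b + 1) - Y i b by ring]
    · obtain ⟨g1, g2, g3, g4⟩ := h1
      by_cases h6 : i < o + τ
      · have h7 : b = c + A - 1 := by
          by_contra h8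
          apply h5
          exact ⟨g1, g2, by omega, Or.inr ⟨h6, by omega⟩⟩
        obtain ⟨e1, e2, e3⟩ := huniq x (y + 1) (i - τ + T) 0 (S - 1) (N + 1)
          ⟨by omega, by omega, le_refl _, Or.inl hc⟩
          (by rw [h2]; ring) (by rw [h3, h7]; ring)
        rw [e1, e2, e3, h7]
        have := hv3 i g1 h6
        rwa [show Y (i - τ + T) 0 + (N + 1) - (Y i (c + A - 1) + N) =
          Y (i - τ + T) 0 + 1 - Y i (c + A - 1) by ring]
      · have h7 : b = c - 1 := by
          by_contra h8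
          apply h5
          exact ⟨g1, g2, by omega, Or.inl (by omega)⟩
        obtain ⟨e1, e2, e3⟩ := huniq x (y + 1) (i - τ) 0 S (N + 1)
          ⟨by omega, by omega, le_refl _, Or.inl hc⟩
          (by rw [h2]; ring) (by rw [h3, h7]; ring)
        rw [e1, e2, e3, h7]
        have := hv2 i (by omega) g2
        rwa [show Y (i - τ) 0 + (N + 1) - (Y i (c - 1) + N) =
          Y (i - τ) 0 + 1 - Y i (c - 1) by ring]
  -- shifts
  have hSh : ∀ x y s' n' : ℤ, ri (x + (s' * T + n' * τ)) (y + (-(s' * A) + n' * c)) = ri x y ∧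
      rb (x + (s' * T + n' * τ)) (y + (-(s' * A) + n' * c)) = rb x y ∧
      rn (x + (s' * T + n' * τ)) (y + (-(s' * A) + n' * c)) = rn x y + n' := by
    intro x y s' n'
    exact huniq _ _ _ _ (rs x y + s') (rn x y + n') (hD x y)
      (by linear_combination hrx x y) (by linear_combination hry x y)
  have hM : ∀ i : ℕ, ri 0 ((i + m : ℕ) : ℤ) = ri 0 (i : ℤ) ∧ rb 0 ((i + m : ℕ) : ℤ) = rb 0 (i : ℤ) ∧
      rn 0 ((i + m : ℕ) : ℤ) = rn 0 (i : ℤ) + T := by
    intro i
    have := hSh 0 (i : ℤ) (-τ) T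
    rwa [show (0 : ℤ) + (-τ * T + T * τ) = 0 by ring,
      show (i : ℤ) + (-(-τ * A) + T * c) = ((i + m : ℕ) : ℤ) by push_cast; rw [← hm]; ring] at this
  have hK : ∀ i : ℕ, ri 1 (i : ℤ) = ri 0 ((i + k : ℕ) : ℤ) ∧ rb 1 (i : ℤ) = rb 0 ((i + k : ℕ) : ℤ) ∧
      rn 1 (i : ℤ) = rn 0 ((i + k : ℕ) : ℤ) + n := by
    intro i
    have := hSh 0 ((i + k : ℕ) : ℤ) s n
    rwa [show (0 : ℤ) + (s * T + n * τ) = 1 by rw [hk1]; ring,
      show ((i + k : ℕ) : ℤ) + (-(s * A) + n * c) = (i : ℤ) by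
        push_cast; linear_combination -hk2] at this
  refine engine hr (fun i => Y (ri 0 (i : ℤ)) (rb 0 (i : ℤ)) + rn 0 (i : ℤ))
    (fun i => X (ri 0 (i : ℤ)) (rb 0 (i : ℤ)) + rn 0 (i : ℤ))
    (fun i => β (ri 0 (i : ℤ)) (rb 0 (i : ℤ))) (fun i => α (ri 0 (i : ℤ)) (rb 0 (i : ℤ)))
    hTr ?_ ?_ ?_ ?_ ?_ ?_ ?_
  · intro i
    obtain ⟨e1, e2, e3⟩ := hM i
    simp only [e1, e2, e3]
    exact ⟨0, by ring⟩
  · intro i
    obtain ⟨e1, e2, e3⟩ := hM i
    simp only [e1, e2, e3]
    exact ⟨0, by ring⟩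
  · intro i
    obtain ⟨e1, e2, e3⟩ := hM i
    simp only [e1, e2]
  · intro i
    obtain ⟨e1, e2, e3⟩ := hM i
    simp only [e1, e2]
  · intro i
    obtain ⟨s', hs', h⟩ := hV 0 (i : ℤ)
    refine ⟨s', hs', 0, ?_⟩
    push_cast
    rw [h]
    ring
  · intro i
    obtain ⟨s', hs', h⟩ := hs _ _ (hD 0 (i : ℤ))
    refine ⟨-s', by omega, 0, ?_⟩
    rw [Bool.and_comm]
    linear_combination -h
  · intro i
    obtain ⟨s', hs', h⟩ := hU 0 (i : ℤ)
    rw [zero_add] at h
    obtain ⟨e1, e2, e3⟩ := hK i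
    obtain ⟨z, hz⟩ := hrn
    refine ⟨s', hs', -z, ?_⟩
    rw [e1, e2, e3] at h
    linear_combination h - hz

end Pool.Agent.Helper89.EM
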