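import Mathlib
import Pool.Agent.Helper92.EM.Lattice

/-!
# The network from its two shapes
-/

set_option autoImplicit false

namespace Pool.Agent.Helper89.EM

namespace Lat

/-- the first shape -/
def Shape1 (m r : ℕ) : Prop := ∀ {k : ℕ} {A T g c s n : ℤ}, IsCoprime A (r : ℤ) → A % 2 = 1 →
  3 ≤ A → T % 2 = 0 → g % 2 = 1 → 3 ≤ g → g ≤ T - 1 → A + 3 ≤ c → g * A + c * T = m →
  (k : ℤ) = s * T + n * g → s * A - n * c = 1 → (r : ℤ) ∣ n → Rel m r k

/-- the second shape -/
def Shape2 (m r : ℕ) : Prop := ∀ {k : ℕ} {A T c s n : ℤ}, IsCoprime A (r : ℤ) → A % 2 = 1 →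
  3 ≤ A → T % 2 = 0 → 4 ≤ T → 2 * A + 3 ≤ c → 1 * A + c * T = m →
  (k : ℤ) = s * T + n * 1 → s * A - n * c = 1 → (r : ℤ) ∣ n → Rel m r k

theorem net_of_shapes {m r : ℕ} (h1 : Shape1 m r) (h2 : Shape2 m r) (hm : m % 2 = 1) :
    Net m r := by
  intro k A T z hA hk hA2 hA3 hT2 hT4 hz hb
  have hn : IsCoprime A ((r : ℤ) * z) := hA.mul_right hz
  obtain ⟨s0, c0, h0⟩ : ∃ s0 c0 : ℤ, s0 * A - r * z * c0 = 1 := by
    obtain ⟨u, v, huv⟩ := hn
    exact ⟨u, -v, by linear_combination huv⟩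
  have hT0 : (0 : ℤ) < T := by omega
  set g0 : ℤ := s0 * m - k * c0 with hg0
  have hk0 : (k : ℤ) = s0 * T + r * z * g0 := by
    rw [hg0]
    linear_combination s0 * hk - (k : ℤ) * h0
  have hm0 : g0 * A + c0 * T = m := by
    rw [hg0]
    linear_combination (m : ℤ) * h0 - c0 * hk
  have hdm := Int.mul_ediv_add_emod g0 T
  have hg1 := Int.emod_nonneg g0 hT0.ne'
  have hg2 := Int.emod_lt_of_pos g0 hT0
  set t := g0 / T with ht
  set g := g0 % T with hg
  have hm1 : g * A + (c0 + A * t) * T = m := by linear_combination hm0 + A * hdm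
  have hk1 : (k : ℤ) = (s0 + r * z * t) * T + r * z * g := by
    linear_combination hk0 - (r : ℤ) * z * hdm
  have hs1 : (s0 + r * z * t) * A - r * z * (c0 + A * t) = 1 := by linear_combination h0
  have hrn : (r : ℤ) ∣ r * z := dvd_mul_right _ _
  have hgodd : g % 2 = 1 := by
    rcases Int.emod_two_eq_zero_or_one g with h | h
    · exfalso
      have e1 : (m : ℤ) % 2 = 0 := by
        rw [← hm1]
        refine Int.emod_eq_zero_of_dvd (dvd_add (Dvd.dvd.mul_right (Int.dvd_of_emod_eq_zero h) _)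
          (Dvd.dvd.mul_left (Int.dvd_of_emod_eq_zero hT2) _))
      omega
    · exact h
  generalize c0 + A * t = c at *
  generalize s0 + r * z * t = s at *
  rcases eq_or_ne g 1 with h | h
  · rw [h] at hm1 hk1
    refine h2 hA hA2 hA3 hT2 hT4 ?_ hm1 hk1 hs1 hrn
    have e1 : (2 * A + 4) * T < c * T := by nlinarith
    have e2 := lt_of_mul_lt_mul_right e1 hT0.le
    omega
  · refine h1 hA hA2 hA3 hT2 hgodd (by omega) (by omega) ?_ hm1 hk1 hs1 hrn
    have e3 : g * A ≤ (T - 1) * A := mul_le_mul_of_nonneg_right (by omega) (by omega)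
    have e1 : (A + 4) * T < c * T := by nlinarith
    have e2 := lt_of_mul_lt_mul_right e1 hT0.le
    omega

end Lat

end Pool.Agent.Helper89.EM
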