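import Mathlib
import Pool.Agent.Helper92.EM.Bridge

/-!
# Relative labellings for all `k` of large order, when the base is large
-/

set_option autoImplicit false

namespace Pool.Agent.Helper89.EM

namespace Lat

/-- the network with the rims exchanged -/
def SNet (m r : ℕ) : Prop := ∀ (k : ℕ) (A T z : ℤ), IsCoprime T (r : ℤ) →
  (k : ℤ) * T = A + m * r * z → A % 2 = 1 → 3 ≤ A → T % 2 = 0 → 4 ≤ T → IsCoprime T z →
  (2 * A + 4) * (T + 1) ≤ m → Rel m r k

/-- the first shape, exchanged -/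
def SShape1 (m r : ℕ) : Prop := ∀ {k : ℕ} {A T g c s n : ℤ}, IsCoprime T (r : ℤ) → A % 2 = 1 →
  3 ≤ A → T % 2 = 0 → g % 2 = 1 → 3 ≤ g → g ≤ T - 1 → A + 3 ≤ c → g * A + c * T = m →
  s * T + n * g = 1 → s * A - n * c = k → (r : ℤ) ∣ n → Rel m r k

/-- the second shape, exchanged -/
def SShape2 (m r : ℕ) : Prop := ∀ {k : ℕ} {A T c s n : ℤ}, IsCoprime T (r : ℤ) → A % 2 = 1 →
  3 ≤ A → T % 2 = 0 → 4 ≤ T → 2 * A + 3 ≤ c → 1 * A + c * T = m →
  s * T + n * 1 = 1 → s * A - n * c = k → (r : ℤ) ∣ n → Rel m r k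

theorem snet_of_shapes {m r : ℕ} (h1 : SShape1 m r) (h2 : SShape2 m r) (hm : m % 2 = 1) :
    SNet m r := by
  intro k A T z hT hk hA2 hA3 hT2 hT4 hz hb
  have hn : IsCoprime T ((r : ℤ) * z) := hT.mul_right hz
  obtain ⟨s0, g0, h0⟩ : ∃ s0 g0 : ℤ, s0 * T + -(r * z) * g0 = 1 := by
    obtain ⟨u, v, huv⟩ := hn
    exact ⟨u, -v, by linear_combination huv⟩
  have hT0 : (0 : ℤ) < T := by omega
  have hdm := Int.mul_ediv_add_emod g0 T
  have hg1 := Int.emod_nonneg g0 hT0.ne'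
  have hg2 := Int.emod_lt_of_pos g0 hT0
  set t := g0 / T with ht
  set g := g0 % T with hg
  obtain ⟨s, hs⟩ : ∃ s : ℤ, s = s0 + -(r * z) * t := ⟨_, rfl⟩
  have hs1 : s * T + -(r * z) * g = 1 := by
    rw [hs]
    linear_combination h0 - (r : ℤ) * z * hdm
  obtain ⟨c, hc⟩ : ∃ c : ℤ, c = s * m - g * k := ⟨_, rfl⟩
  have hm1 : g * A + c * T = m := by
    rw [hc]
    linear_combination (m : ℤ) * hs1 - g * hk
  have hk1 : s * A - -(r * z) * c = k := by
    rw [hc]
    linear_combination (k : ℤ) * hs1 - s * hk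
  have hrn : (r : ℤ) ∣ -(r * z) := (dvd_mul_right _ _).neg_right
  have hgodd : g % 2 = 1 := by
    rcases Int.emod_two_eq_zero_or_one g with h | h
    · exfalso
      have e1 : (m : ℤ) % 2 = 0 := by
        rw [← hm1]
        refine Int.emod_eq_zero_of_dvd (dvd_add (Dvd.dvd.mul_right (Int.dvd_of_emod_eq_zero h) _)
          (Dvd.dvd.mul_left (Int.dvd_of_emod_eq_zero hT2) _))
      omega
    · exact h
  clear_value t g
  clear hc hs
  rcases eq_or_ne g 1 with h | h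
  · rw [h] at hm1 hs1
    refine h2 hT hA2 hA3 hT2 hT4 ?_ hm1 hs1 hk1 hrn
    have e1 : (2 * A + 4) * T < c * T := by nlinarith
    have e2 := lt_of_mul_lt_mul_right e1 hT0.le
    omega
  · refine h1 hT hA2 hA3 hT2 hgodd (by omega) (by omega) ?_ hm1 hs1 hk1 hrn
    have e3 : g * A ≤ (T - 1) * A := mul_le_mul_of_nonneg_right (by omega) (by omega)
    have e1 : (A + 4) * T < c * T := by nlinarith
    have e2 := lt_of_mul_lt_mul_right e1 hT0.le
    omega

section main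

variable {m r : ℕ}

theorem snet_pos (hnet : SNet m r) (hm : m % 2 = 1) (hr : r % 2 = 1) (hr3 : 3 ≤ r)
    (hmr : 40 * r ^ 2 ≤ m) {k : ℕ} {A T z : ℤ} (hA : IsCoprime A (r : ℤ))
    (hk : (k : ℤ) * A = T + m * r * z) (hA4 : A % 4 = 0) (hA0 : 0 < A) (hAr : A < 4 * r)
    (hT2 : T % 2 = 1) (hT0 : 0 < T) (hTr : T < 4 * r) (hz : IsCoprime A z) : Rel m r k := by
  have hmr' : 40 * (r : ℤ) ^ 2 ≤ m := by exact_mod_cast hmr
  have h3r : 3 * (r : ℤ) ≤ r ^ 2 := by nlinarith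
  rcases eq_or_ne T 1 with h1 | h1
  · subst h1
    obtain ⟨a, rfl⟩ : ∃ a : ℕ, A = a := ⟨A.toNat, by omega⟩
    have h2 : Rel m r a := rel_even (by omega) (by omega) hm (by omega) hr
    refine h2.inv ?_
    rw [← Int.natCast_modEq_iff]
    refine Int.modEq_iff_dvd.2 ⟨-z, ?_⟩
    push_cast
    linear_combination -hk
  · refine hnet k T A z hA hk hT2 (by omega) (by omega) (by omega) hz ?_
    have h2 : (2 * T + 4) * (A + 1) ≤ (8 * r + 2) * (4 * r) := by
      refine mul_le_mul (by omega) (by omega) (by omega) (by omega)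
    nlinarith

theorem snet_any (hnet : SNet m r) (hm : m % 2 = 1) (hr : r % 2 = 1) (hr3 : 3 ≤ r)
    (hmr : 40 * r ^ 2 ≤ m) {k : ℕ} {A T z : ℤ} (hA : IsCoprime A (r : ℤ))
    (hk : (k : ℤ) * A = T + m * r * z) (hA4 : A % 4 = 0) (hA0 : 0 < A) (hAr : A < 4 * r)
    (hT2 : T % 2 = 1) (hTr : |T| < 4 * r) (hz : IsCoprime A z) : Rel m r k := by
  rcases lt_or_gt_of_ne (by omega : T ≠ 0) with h | h
  · rw [abs_of_neg h] at hTr
    have hN : 1 ≤ m * r := Nat.mul_pos (by omega) (by omega)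
    have h1 : Rel m r ((m * r - 1) * k) := by
      refine snet_pos hnet hm hr hr3 hmr (A := A) (T := -T) (z := k * A - z) hA ?_ hA4 hA0 hAr
        (by omega) (by omega) hTr ?_
      · push_cast [Nat.cast_sub hN]
        linear_combination -hk
      · have e1 : (k : ℤ) * A - z = -(z + A * (-k)) := by ring
        rw [e1]
        exact (hz.add_mul_left_right (-k)).neg_right
    refine h1.neg ?_
    have e2 : (m * r - 1) * k + k = m * r * k := by
      obtain ⟨n, hn⟩ : ∃ n, m * r = n + 1 := ⟨m * r - 1, by omega⟩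
      rw [hn, Nat.add_sub_cancel]
      ring
    rw [e2]
    simp [Nat.ModEq]
  · rw [abs_of_pos h] at hTr
    exact snet_pos hnet hm hr hr3 hmr hA hk hA4 hA0 hAr hT2 h hTr hz

/-- Case II, without coprimality. -/
theorem caseII' (hnet : Net m r) (hsnet : SNet m r) (hm : m % 2 = 1) (hr : r.Prime)
    (hr2 : r % 2 = 1) (hmr : 40 * r ^ 2 ≤ m) {k : ℕ} {A T z : ℤ}
    (hA : ¬ (r : ℤ) ∣ A) (hk : (k : ℤ) * A = T + m * r * z) (hA0 : 0 < A) (hAr : A < 4 * r)
    (hT0 : T ≠ 0) (hTr : |T| < 4 * r) (hz : IsCoprime A z)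
    (hev : ¬ (A % 2 = 0 ∧ T % 2 = 0)) : Rel m r k := by
  have hr3 : 3 ≤ r := by
    have := hr.two_le
    omega
  have hrI : Prime (r : ℤ) := Nat.prime_iff_prime_int.1 hr
  have hcop : ∀ {B : ℤ}, ¬ (r : ℤ) ∣ B → IsCoprime B (r : ℤ) := fun {B} h =>
    (hrI.irreducible.coprime_iff_not_dvd.2 h).symm
  have hmr' : 40 * (r : ℤ) ^ 2 ≤ m := by exact_mod_cast hmr
  have h3r : 3 * (r : ℤ) ≤ r ^ 2 := by nlinarith
  have hAabs : |A| = A := abs_of_pos hA0
  by_cases hA2 : A % 2 = 1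
  · by_cases hT2 : T % 2 = 1
    · exact rel_one hm hr2 (hcop hA) hk hA2 hT2 (by omega) (by omega)
    by_cases hT4 : T % 4 = 2
    · exact rel_two hm hr2 (hcop hA) hk hA2 hT4 (by omega) (by omega)
    · exact net_any hnet hm hr2 hr3 hmr (hcop hA) hk hA2 hA0 hAr (by omega) hT0 hTr hz
  have hT2 : T % 2 = 1 := by omega
  by_cases hA4 : A % 4 = 2
  · exact rel_half hm hr2 (hcop hA) hk hA4 hT2 (by omega) (by omega)
  · exact snet_any hsnet hm hr2 hr3 hmr (hcop hA) hk (by omega) hA0 hAr hT2 hTr hz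

end main

end Lat

section final

open Pool.Agent.Helper89.EM.Lat

/-- All `k` of large order modulo `m`, `r` an odd prime, `m` large. -/
theorem rel_prime' {m r k : ℕ} (hnet : Net m r) (hsnet : SNet m r) (hr : r.Prime)
    (hr2 : r % 2 = 1) (hm : m % 2 = 1) (hmr : 40 * r ^ 2 ≤ m)
    (hord : ∀ a : ℕ, 0 < a → a < 4 * r → ¬ m ∣ k * a) : Rel m r k := by
  have hr3 : 3 ≤ r := by
    have := hr.two_le
    omega
  obtain ⟨A, T, z, hA0, hAr, hT, hk, hz⟩ := short k m r (by omega) (by omega)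
  have hT0 : T ≠ 0 := by
    rintro rfl
    obtain ⟨a, rfl⟩ : ∃ a : ℕ, A = a := ⟨A.toNat, by omega⟩
    refine hord a (by omega) (by omega) ?_
    have h1 : (m : ℤ) ∣ ((k * a : ℕ) : ℤ) := by
      push_cast
      rw [hk]
      exact ⟨r * z, by ring⟩
    exact_mod_cast h1
  obtain ⟨b, c, hbc⟩ : ∃ b c : ℤ, b * z - A * c = 1 := by
    obtain ⟨u, v, huv⟩ := hz
    exact ⟨v, -u, by linear_combination huv⟩
  obtain ⟨s, hs⟩ := bal ((k : ℤ) * b - m * r * c) T hT0
  have hk' : (k : ℤ) * (b + s * A) = ((k : ℤ) * b - m * r * c + s * T) + m * r * (c + s * z) := by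
    linear_combination s * hk
  have hz' : (b + s * A) * z - A * (c + s * z) = 1 := by linear_combination hbc
  have hdet : A * ((k : ℤ) * b - m * r * c + s * T) - (b + s * A) * T = m * r := by
    linear_combination (m : ℤ) * r * hbc + b * hk
  rcases lt_or_ge |T| (4 * r) with hTr | hTr
  · by_cases hd : (r : ℤ) ∣ A
    · exact caseIII hm hr hr2 hmr hk hk' hdet hz' hA0 hAr hT0 hTr hd
    · refine caseII' hnet hsnet hm hr hr2 hmr hd hk hA0 hAr hT0 hTr hz ?_
      rintro ⟨h1, h2⟩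
      have h3 : (2 : ℤ) ∣ m * r := by
        rw [← hdet]
        exact dvd_sub (Dvd.dvd.mul_right (Int.dvd_of_emod_eq_zero h1) _)
          (Dvd.dvd.mul_left (Int.dvd_of_emod_eq_zero h2) _)
      rcases Int.prime_two.dvd_or_dvd h3 with h4 | h4 <;> omega
  · exact caseI hm hr hr2 hmr hk hk' hdet hz' hA0 hAr hT hTr hs

/-- All `k` of large order modulo `m`, `s` odd, `m` large. -/
theorem rel_universal' {k : ℕ}
    (hnet : ∀ m' r : ℕ, m' % 2 = 1 → r % 2 = 1 → Net m' r ∧ SNet m' r) (s : ℕ) (hs : s % 2 = 1) :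
    ∀ {m : ℕ}, m % 2 = 1 → 40 * s ^ 2 ≤ m → (∀ a : ℕ, 0 < a → a < 4 * s → ¬ m ∣ k * a) →
      Rel m s k := by
  induction s using Nat.recOnMul with
  | zero => omega
  | one =>
    intro m _ _ _
    exact Rel.one m k
  | prime p hp =>
    intro m hm hmr hk
    exact rel_prime' (hnet m p hm hs).1 (hnet m p hm hs).2 hp hs hm hmr hk
  | mul a b iha ihb =>
    intro m hm hmr hk
    have ha : a % 2 = 1 := by
      rcases Nat.mod_two_eq_zero_or_one a with h | h
      · rw [Nat.mul_mod, h] at hs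
        simp at hs
      · exact h
    have hb : b % 2 = 1 := by
      rcases Nat.mod_two_eq_zero_or_one b with h | h
      · rw [Nat.mul_mod, h] at hs
        simp at hs
      · exact h
    have ha1 : 1 ≤ a := by omega
    have hb1 : 1 ≤ b := by omega
    have ha2 : a ≤ a * b := Nat.le_mul_of_pos_right a hb1
    have hb2 : b ≤ a * b := Nat.le_mul_of_pos_left b ha1
    have h1 : 40 * a ^ 2 ≤ m :=
      le_trans (Nat.mul_le_mul_left _ (Nat.pow_le_pow_left ha2 2)) hmr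
    have h2 : 40 * b ^ 2 ≤ m * a :=
      (le_trans (Nat.mul_le_mul_left _ (Nat.pow_le_pow_left hb2 2)) hmr).trans
        (Nat.le_mul_of_pos_right m ha1)
    have hma : (m * a) % 2 = 1 := by
      rw [Nat.mul_mod, hm, ha]
    refine Rel.comp ha hb (iha ha hm h1 fun c hc0 hc => hk c hc0 (by omega))
      (ihb hb hma h2 fun c hc0 hc hd => hk c hc0 (by omega) ((dvd_mul_right m a).trans hd))

end final

end Pool.Agent.Helper89.EM
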