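import Mathlib
import Pool.Agent.Helper89.EM.Net1
import Pool.Agent.Helper89.EM.Net2
import Pool.Agent.Helper92.EM.DomSwap
import Pool.Agent.Helper92.EM.Lattice2

/-!
# The shapes
-/

set_option autoImplicit false

namespace Pool.Agent.Helper89.EM

theorem shape1 {m r : ℕ} (hr : r % 2 = 1) : Lat.Shape1 m r := by
  intro k A T g c s n hA hA2 hA3 hT hg hg3 hgT hc hm hk1 hk2 hrn
  exact rel_net1 hr hA hA2 hA3 hT hg hg3 hgT hc hm hk1 hk2 hrn

theorem sshape1 {m r : ℕ} (hr : r % 2 = 1) : Lat.SShape1 m r := by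
  intro k A T g c s n hTr hA2 hA3 hT hg hg3 hgT hc hm hk1 hk2 hrn
  refine rel_dom_swap (o := 2) (τ := g) (c := c) hr hTr (by omega) (by omega) (by omega)
    (by omega) (by omega) hm hk1 hk2 hrn (N1.xv A g c) (N1.yv A g c)
    (fun i b => decide (N1.isN A g c i b)) (fun i b => decide (¬ N1.isT A g c i b))
    ?_ ?_ ?_ ?_ ?_ ?_ ?_
  · exact fun i b h h' => ed_intro (N1.u1 hA2 hA3 hT hg hg3 hgT hc i b h h')
  · exact fun b h h' => ed_intro (N1.u2 hA2 hA3 hT hg hg3 hgT hc b h h')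
  · exact fun b h h' => ed_intro (N1.u3 hA2 hA3 hT hg hg3 hgT hc b h h')
  · exact fun i b h => ed_intro (N1.sp hA2 hA3 hT hg hg3 hgT hc i b h)
  · exact fun i b h h' => ed_intro (N1.v1 hA2 hA3 hT hg hg3 hgT hc i b h h')
  · exact fun i h h' => ed_intro (N1.v2 hA2 hA3 hT hg hg3 hgT hc i h h')
  · exact fun i h h' => ed_intro (N1.v3 hA2 hA3 hT hg hg3 hgT hc i h h')

theorem shape2 {m r : ℕ} (hr : r % 2 = 1) : Lat.Shape2 m r := by
  intro k A T c s n hA hA2 hA3 hT hT4 hc hm hk1 hk2 hrn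
  exact rel_net2 hr hA hA2 hA3 hT hT4 hc hm hk1 hk2 hrn

theorem sshape2 {m r : ℕ} (hr : r % 2 = 1) : Lat.SShape2 m r := by
  intro k A T c s n hTr hA2 hA3 hT hT4 hc hm hk1 hk2 hrn
  refine rel_dom_swap (o := 3) (τ := 1) (c := c) hr hTr (by omega) (by omega) (by omega)
    (by omega) (by omega) hm hk1 hk2 hrn (N2.xv A T c) (N2.yv A T c)
    (fun i b => decide (N2.isN A T c i b)) (fun i b => decide (¬ N2.isT A T c i b))
    ?_ ?_ ?_ ?_ ?_ ?_ ?_
  · exact fun i b h h' => ed_intro (N2.u1 hA2 hA3 hT hT4 hc i b h h')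
  · exact fun b h h' => ed_intro (N2.u2 hA2 hA3 hT hT4 hc b h h')
  · exact fun b h h' => ed_intro (N2.u3 hA2 hA3 hT hT4 hc b h h')
  · exact fun i b h => ed_intro (N2.sp hA2 hA3 hT hT4 hc i b h)
  · exact fun i b h h' => ed_intro (N2.v1 hA2 hA3 hT hT4 hc i b h h')
  · exact fun i h h' => ed_intro (N2.v2 hA2 hA3 hT hT4 hc i h h')
  · exact fun i h h' => ed_intro (N2.v3 hA2 hA3 hT hT4 hc i h h')

theorem nets {m r : ℕ} (hm : m % 2 = 1) (hr : r % 2 = 1) : Lat.Net m r ∧ Lat.SNet m r :=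
  ⟨Lat.net_of_shapes (shape1 hr) (shape2 hr) hm, Lat.snet_of_shapes (sshape1 hr) (sshape2 hr) hm⟩

/-- The universal relative labelling. -/
theorem rel_all {m s k : ℕ} (hm : m % 2 = 1) (hs : s % 2 = 1) (hms : 40 * s ^ 2 ≤ m)
    (hk : ∀ a : ℕ, 0 < a → a < 4 * s → ¬ m ∣ k * a) : Rel m s k :=
  rel_universal' (fun _ _ h1 h2 => nets h1 h2) s hs hm hms hk

end Pool.Agent.Helper89.EM
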