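import Mathlib
import Pool.Agent.Helper92.EM.Shape
import Pool.Agent.Helper89.EM.Flat
import Pool.Agent.Helper89.EM.Three

/-!
# The universal relative labelling, for every `k`
-/

set_option autoImplicit false

namespace Pool.Agent.Helper89.EM

namespace Lat

/-- Case 0: the short vector is vertical. -/
theorem caseZero {m r : ℕ} (hm : m % 2 = 1) (hr : r.Prime) (hr2 : r % 2 = 1)
    (hmr : 40 * r ^ 2 ≤ m) {k : ℕ} {A z : ℤ} (hk : (k : ℤ) * A = m * r * z) (hA0 : 0 < A)
    (hAr : A < 4 * r) (hz : IsCoprime A z) (hmk : ¬ m ∣ k) : Rel m r k := by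
  have hr3 : 3 ≤ r := by
    have := hr.two_le
    omega
  have hrpos : (0 : ℤ) < r := by omega
  have hrI : Prime (r : ℤ) := Nat.prime_iff_prime_int.1 hr
  have hcop : ∀ {B : ℤ}, ¬ (r : ℤ) ∣ B → IsCoprime B (r : ℤ) := fun {B} h =>
    (hrI.irreducible.coprime_iff_not_dvd.2 h).symm
  have h3r : 3 * r ≤ r ^ 2 := by nlinarith
  have hm0 : (0 : ℤ) < m := by omega
  have hAd : A ∣ (m : ℤ) * r := by
    refine hz.dvd_of_dvd_mul_right ?_
    rw [← hk]
    exact dvd_mul_left _ _
  have hz0 : 0 ≤ z := by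
    by_contra hz0
    have h1 : (m : ℤ) * r * z < 0 := mul_neg_of_pos_of_neg (mul_pos hm0 hrpos) (by omega)
    have h2 : (0 : ℤ) ≤ (k : ℤ) * A := mul_nonneg (by omega) hA0.le
    omega
  have hA2 : A % 2 = 1 := by
    rcases Int.emod_two_eq_zero_or_one A with h | h
    · exfalso
      have h3 : (2 : ℤ) ∣ m * r := (Int.dvd_of_emod_eq_zero h).trans hAd
      rcases Int.prime_two.dvd_or_dvd h3 with h4 | h4 <;> omega
    · exact h
  by_cases hd : (r : ℤ) ∣ A
  · obtain ⟨a, ha⟩ := hd
    have ha0 : 0 < a := by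
      rw [ha] at hA0
      exact (mul_pos_iff_of_pos_left hrpos).1 hA0
    have ha4 : a < 4 := by
      rw [ha, mul_comm] at hAr
      exact lt_of_mul_lt_mul_right hAr hrpos.le
    have hka : (k : ℤ) * a = m * z := by
      have h1 : (r : ℤ) * (k * a) = r * (m * z) := by
        rw [ha] at hk
        linear_combination hk
      exact mul_left_cancel₀ hrpos.ne' h1
    have ha1 : a ≠ 1 := by
      rintro rfl
      apply hmk
      have h1 : (m : ℤ) ∣ (k : ℤ) := ⟨z, by linear_combination hka⟩
      exact_mod_cast h1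
    have ha2 : a ≠ 2 := by
      rintro rfl
      rw [ha] at hA2
      omega
    have ha3 : a = 3 := by omega
    subst ha3
    obtain ⟨b, c, hbc⟩ : ∃ b c : ℤ, b * z - A * c = 1 := by
      obtain ⟨u, v, huv⟩ := hz
      exact ⟨v, -u, by linear_combination huv⟩
    obtain ⟨T, hT⟩ : ∃ T : ℤ, T = (k : ℤ) * b - m * r * c := ⟨_, rfl⟩
    have h3T : 3 * T = m := by
      have h1 : (r : ℤ) * (3 * T) = r * m := by
        have h2 : A * T = m * r := by
          rw [hT]
          linear_combination (m : ℤ) * r * hbc + b * hk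
        rw [ha] at h2
        linear_combination h2
      exact mul_left_cancel₀ hrpos.ne' h1
    have hnd : ¬ (r : ℤ) ∣ b := by
      intro h
      have h3 : (r : ℤ) ∣ 1 := by
        rw [← hbc]
        refine dvd_sub (h.mul_right z) (Dvd.dvd.mul_right ?_ c)
        rw [ha]
        exact dvd_mul_right _ _
      have := Int.le_of_dvd (by norm_num) h3
      omega
    have key : ∀ s : ℤ, (b + s * A) % 2 = 1 → |b + s * A| ≤ m → Rel m r k := by
      intro s h1 h2
      refine rel_one (A := b + s * A) (T := T) (z := c + s * z) hm hr2 (hcop ?_) ?_ h1 (by omega)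
        h2 ?_
      · intro h
        apply hnd
        have e1 : b = (b + s * A) - r * (s * 3) := by
          rw [ha]
          ring
        rw [e1]
        exact dvd_sub h (dvd_mul_right _ _)
      · rw [hT]
        linear_combination s * hk
      · rw [abs_of_pos (by omega)]
        omega
    obtain ⟨s, hs⟩ := bal b A (by omega)
    rw [abs_of_pos hA0] at hs
    have hmr' : 40 * (r : ℤ) ^ 2 ≤ m := by exact_mod_cast hmr
    have h3r' : 3 * (r : ℤ) ≤ r ^ 2 := by exact_mod_cast h3r
    rcases Int.emod_two_eq_zero_or_one (b + s * A) with h | h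
    · refine key (s + 1) ?_ ?_
      · have e1 : b + (s + 1) * A = (b + s * A) + A := by ring
        omega
      · have e1 : b + (s + 1) * A = (b + s * A) + A := by ring
        rw [e1]
        have h1 := abs_add_le (b + s * A) A
        rw [abs_of_pos hA0] at h1
        omega
    · exact key s h (by omega)
  · have hAm : A ∣ (m : ℤ) := (hcop hd).dvd_of_dvd_mul_right hAd
    obtain ⟨A', rfl⟩ : ∃ a : ℕ, A = a := ⟨A.toNat, by omega⟩
    obtain ⟨z', rfl⟩ : ∃ a : ℕ, z = a := ⟨z.toNat, by omega⟩
    obtain ⟨w, hw⟩ : A' ∣ m := by exact_mod_cast hAm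
    have hA'0 : 0 < A' := by omega
    have hk1 : k = w * (r * z') := by
      have h1 : (A' : ℤ) * k = A' * (w * (r * z')) := by
        rw [hw] at hk
        push_cast at hk
        linear_combination hk
      have h2 := mul_left_cancel₀ (by omega : (A' : ℤ) ≠ 0) h1
      exact_mod_cast h2
    have hA1 : A' ≠ 1 := by
      rintro rfl
      apply hmk
      rw [hw, one_mul, hk1]
      exact dvd_mul_right _ _
    have hw2 : w % 2 = 1 := by
      rcases Nat.mod_two_eq_zero_or_one w with h | h
      · rw [hw, Nat.mul_mod, h] at hm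
        simp at hm
      · exact h
    have hw5 : 5 ≤ w := by
      by_contra hlt
      have h1 : A' * w ≤ (4 * r) * 5 := Nat.mul_le_mul (by omega) (by omega)
      have h2 : 40 * (3 * r) ≤ 40 * r ^ 2 := Nat.mul_le_mul_left _ h3r
      omega
    rw [hk1, hw, mul_comm A' w]
    refine rel_flat hw2 hw5 (by omega) (by omega) hr2 ?_ ?_
    · exact Nat.isCoprime_iff_coprime.1 (hcop hd)
    · exact (Nat.isCoprime_iff_coprime.1 hz).symm

end Lat

section final

open Pool.Agent.Helper89.EM.Lat

/-- Every `k` with `m ∤ k`; `r` an odd prime, `m` large. -/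
theorem rel_prime'' {m r k : ℕ} (hr : r.Prime) (hr2 : r % 2 = 1) (hm : m % 2 = 1)
    (hmr : 40 * r ^ 2 ≤ m) (hmk : ¬ m ∣ k) : Rel m r k := by
  have hr3 : 3 ≤ r := by
    have := hr.two_le
    omega
  obtain ⟨hnet, hsnet⟩ := nets hm hr2
  obtain ⟨A, T, z, hA0, hAr, hT, hk, hz⟩ := short k m r (by omega) (by omega)
  rcases eq_or_ne T 0 with hT0 | hT0
  · rw [hT0, zero_add] at hk
    exact caseZero hm hr hr2 hmr hk hA0 hAr hz hmk
  obtain ⟨b, c, hbc⟩ : ∃ b c : ℤ, b * z - A * c = 1 := by
    obtain ⟨u, v, huv⟩ := hz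
    exact ⟨v, -u, by linear_combination huv⟩
  obtain ⟨s, hs⟩ := bal ((k : ℤ) * b - m * r * c) T hT0
  have hk' : (k : ℤ) * (b + s * A) = ((k : ℤ) * b - m * r * c + s * T) + m * r * (c + s * z) := by
    linear_combination s * hk
  have hz' : (b + s * A) * z - A * (c + s * z) = 1 := by linear_combination hbc
  have hdet : A * ((k : ℤ) * b - m * r * c + s * T) - (b + s * A) * T = m * r := by
    linear_combination (m : ℤ) * r * hbc + b * hk
  rcases lt_or_ge |T| (4 * r) with hTr | hTr
  · by_cases hd : (r : ℤ) ∣ A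
    · exact caseIII hm hr hr2 hmr hk hk' hdet hz' hA0 hAr hT0 hTr hd
    · refine caseII' hnet hsnet hm hr hr2 hmr hd hk hA0 hAr hT0 hTr hz ?_
      rintro ⟨h1, h2⟩
      have h3 : (2 : ℤ) ∣ m * r := by
        rw [← hdet]
        exact dvd_sub (Dvd.dvd.mul_right (Int.dvd_of_emod_eq_zero h1) _)
          (Dvd.dvd.mul_left (Int.dvd_of_emod_eq_zero h2) _)
      rcases Int.prime_two.dvd_or_dvd h3 with h4 | h4 <;> omega
  · exact caseI hm hr hr2 hmr hk hk' hdet hz' hA0 hAr hT hTr hs

/-- Every `k` with `m ∤ k`; the primes of `s` are `3` or small against `m`. -/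
theorem rel_cover_aux {k : ℕ} (s : ℕ) : ∀ {m : ℕ}, m % 2 = 1 → s % 2 = 1 →
    (∀ p : ℕ, p.Prime → p ∣ s → p = 3 ∨ 40 * p ^ 2 ≤ m) → ¬ m ∣ k → Rel m s k := by
  induction s using Nat.recOnMul with
  | zero =>
    intro m _ h
    omega
  | one =>
    intro m _ _ _ _
    exact Rel.one m k
  | prime p hp =>
    intro m hm hs h hmk
    rcases h p hp dvd_rfl with h3 | h3
    · subst h3
      refine rel_three (by omega) fun hd => hmk ((dvd_mul_left m 3).trans hd)
    · exact rel_prime'' hp hs hm h3 hmk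
  | mul a b iha ihb =>
    intro m hm hs h hmk
    have ha : a % 2 = 1 := by
      rcases Nat.mod_two_eq_zero_or_one a with h | h
      · rw [Nat.mul_mod, h] at hs
        simp at hs
      · exact h
    have hb : b % 2 = 1 := by
      rcases Nat.mod_two_eq_zero_or_one b with h | h
      · rw [Nat.mul_mod, h] at hs
        simp at hs
      · exact h
    have hma : (m * a) % 2 = 1 := by
      rw [Nat.mul_mod, hm, ha]
    refine Rel.comp ha hb (iha hm ha (fun p hp hd => h p hp (hd.mul_right b)) hmk)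
      (ihb hma hb (fun p hp hd => ?_) fun hd => hmk ((dvd_mul_right m a).trans hd))
    rcases h p hp (hd.mul_left a) with h1 | h1
    · exact Or.inl h1
    · exact Or.inr (h1.trans (Nat.le_mul_of_pos_right m (by omega)))

/-- **The universal relative labelling.** -/
theorem rel_cover {m r k : ℕ} (hm : m % 2 = 1) (hr : r % 2 = 1)
    (hp : ∀ p : ℕ, p.Prime → p ∣ r → p = 3 ∨ 40 * p ^ 2 ≤ m) (hk : ¬ m ∣ k) : Rel m r k :=
  rel_cover_aux r hm hr hp hk

end final

end Pool.Agent.Helper89.EM
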