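import Mathlib

/-!
# The orders reached by chains of coverings: definition
-/

set_option autoImplicit false

namespace Pool.Agent.Helper89.EM

/-- `n` is reached from `1`, for `k`: the least set containing `1` and, with `m`, also `3 m`,
`p m` for every odd prime `p` with `40 p ^ 2 ≤ m`, and `p m` for every odd prime `p ≤ 23` dividing
neither `k` nor `m`. -/
inductive Reach (k : ℕ) : ℕ → Prop
  | one : Reach k 1
  | three {m : ℕ} : Reach k m → Reach k (m * 3)
  | big {m p : ℕ} : Reach k m → p.Prime → p ≠ 2 → 40 * p ^ 2 ≤ m → Reach k (m * p)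
  | small {m p : ℕ} : Reach k m → p.Prime → p ≠ 2 → p ≤ 23 → ¬ p ∣ k → ¬ p ∣ m → Reach k (m * p)

end Pool.Agent.Helper89.EM
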