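import Mathlib
import Pool.Agent.Helper92.EM.Cover
import Pool.Agent.Helper92.EM.ReachDef
import Pool.Agent.Helper89.EM.Short

/-!
# Chains of coverings
-/

set_option autoImplicit false

namespace Pool.Agent.Helper89.EM

/-- One prime, every `k`. -/
theorem SEM.prime {m p k : ℕ} (hm : m % 2 = 1) (hp : p.Prime) (hp2 : p % 2 = 1)
    (hmp : 40 * p ^ 2 ≤ m) (h : m ∣ k ∨ SEM m k) : m * p ∣ k ∨ SEM (m * p) k := by
  have h1 : p ≤ p ^ 2 := Nat.le_self_pow (by norm_num) p
  have h2 := hp.two_le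
  by_cases hd : m ∣ k
  · obtain ⟨j, rfl⟩ := hd
    by_cases hj : p ∣ j
    · exact Or.inl (mul_dvd_mul_left m hj)
    · exact Or.inr (SEM.vert hm (by omega) hp2 (by omega) (hp.coprime_iff_not_dvd.2 hj).symm)
  · exact Or.inr ((h.resolve_left hd).lift (by omega) (rel_prime'' hp hp2 hm hmp hd))

/-- All coverings, every `k`. -/
theorem SEM.cover {k : ℕ} (r : ℕ) : ∀ {m : ℕ}, m % 2 = 1 → r % 2 = 1 →
    (∀ p : ℕ, p.Prime → p ∣ r → p = 3 ∨ 40 * p ^ 2 ≤ m) → (m ∣ k ∨ SEM m k) →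
      (m * r ∣ k ∨ SEM (m * r) k) := by
  induction r using Nat.recOnMul with
  | zero =>
    intro m _ h
    omega
  | one =>
    intro m _ _ _ h
    rwa [mul_one]
  | prime p hp =>
    intro m hm hs h h0
    rcases h p hp dvd_rfl with h3 | h3
    · subst h3
      rw [mul_comm]
      exact SEM.tri hm h0
    · exact SEM.prime hm hp hs h3 h0
  | mul a b iha ihb =>
    intro m hm hs h h0
    have ha : a % 2 = 1 := by
      rcases Nat.mod_two_eq_zero_or_one a with h | h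
      · rw [Nat.mul_mod, h] at hs
        simp at hs
      · exact h
    have hb : b % 2 = 1 := by
      rcases Nat.mod_two_eq_zero_or_one b with h | h
      · rw [Nat.mul_mod, h] at hs
        simp at hs
      · exact h
    have hma : (m * a) % 2 = 1 := by
      rw [Nat.mul_mod, hm, ha]
    rw [← mul_assoc]
    refine ihb hma hb (fun p hp hd => ?_) (iha hm ha (fun p hp hd => h p hp (hd.mul_right b)) h0)
    rcases h p hp (hd.mul_left a) with h1 | h1
    · exact Or.inl h1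
    · exact Or.inr (h1.trans (Nat.le_mul_of_pos_right m (by omega)))

/-- The covering theorem for graphs: `k'` is over some `k` or over `0`. -/
theorem cover_graph {m r k' : ℕ} (hm : m % 2 = 1) (hr : r % 2 = 1)
    (hp : ∀ p : ℕ, p.Prime → p ∣ r → p = 3 ∨ 40 * p ^ 2 ≤ m)
    (hk'0 : 1 ≤ k') (hk' : 2 * k' < m * r)
    (h : m ∣ k' ∨ ∃ k : ℕ, 1 ≤ k ∧ 2 * k < m ∧ (k' ≡ k [MOD m] ∨ k' + k ≡ 0 [MOD m]) ∧
      IsSuperEdgeMagic (GP m k)) : IsSuperEdgeMagic (GP (m * r) k') := by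
  refine graph_of hk'0 hk' (SEM.cover r hm hr hp ?_)
  rcases h with h | ⟨k, hk0, hk, hkk, h⟩
  · exact Or.inl h
  · right
    have h1 := sem_of_isSuperEdgeMagic (by omega) hk0 hk h
    rcases hkk with h2 | h2
    · exact h1.congr h2.symm
    · exact h1.neg (by rwa [Nat.add_comm])

theorem Reach.main {k n : ℕ} (h : Reach k n) : n % 2 = 1 ∧
    ((n ∣ k ∧ (40 ≤ n ∨ ∃ a, n = 3 ^ a)) ∨ (¬ n ∣ k ∧ SEM n k)) := by
  induction h with
  | one => exact ⟨by norm_num, Or.inl ⟨one_dvd k, Or.inr ⟨0, by norm_num⟩⟩⟩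
  | @three m _ ih =>
    obtain ⟨hm, ih⟩ := ih
    refine ⟨by omega, ?_⟩
    by_cases hd : m * 3 ∣ k
    · left
      refine ⟨hd, ?_⟩
      rcases ih with ⟨-, h1 | ⟨a, h1⟩⟩ | ⟨h1, -⟩
      · left
        omega
      · exact Or.inr ⟨a + 1, by rw [h1, pow_succ]⟩
      · exact absurd ((dvd_mul_right m 3).trans hd) h1
    · right
      refine ⟨hd, ?_⟩
      rw [mul_comm] at hd ⊢
      refine (SEM.tri hm ?_).resolve_left hd
      rcases ih with ⟨h1, -⟩ | ⟨-, h1⟩
      · exact Or.inl h1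
      · exact Or.inr h1
  | @big m p _ hp hp2 hb ih =>
    obtain ⟨hm, ih⟩ := ih
    have hpo : p % 2 = 1 := hp.eq_two_or_odd.resolve_left hp2
    have h1 : p ≤ p ^ 2 := Nat.le_self_pow (by norm_num) p
    have h2 := hp.two_le
    have h3 : m ≤ m * p := Nat.le_mul_of_pos_right m (by omega)
    refine ⟨by rw [Nat.mul_mod, hm, hpo], ?_⟩
    by_cases hd : m * p ∣ k
    · left
      exact ⟨hd, Or.inl (by omega)⟩
    · right
      refine ⟨hd, ?_⟩
      refine (SEM.prime hm hp hpo hb ?_).resolve_left hd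
      rcases ih with ⟨h1, -⟩ | ⟨-, h1⟩
      · exact Or.inl h1
      · exact Or.inr h1
  | @small m p _ hp hp2 h23 hpk hpm ih =>
    obtain ⟨hm, ih⟩ := ih
    have hpo : p % 2 = 1 := hp.eq_two_or_odd.resolve_left hp2
    have h2 := hp.two_le
    refine ⟨by rw [Nat.mul_mod, hm, hpo], ?_⟩
    have hd : ¬ m * p ∣ k := fun hd => hpk ((dvd_mul_left p m).trans hd)
    right
    refine ⟨hd, ?_⟩
    rcases ih with ⟨h1, h3 | ⟨a, h3⟩⟩ | ⟨-, h1⟩
    · obtain ⟨j, rfl⟩ := h1
      refine SEM.vert hm (by omega) hpo (by omega) (hp.coprime_iff_not_dvd.2 ?_).symm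
      exact fun hj => hpk (hj.mul_left m)
    · subst h3
      exact SEM.of_blk (Nat.mul_pos (by positivity) (by omega))
        ((blk_pow hpo h23 a).1.resolve_left hd)
    · refine h1.lift (by omega) (Rel.of_blk (by omega) ?_ (blk_small hpo (by omega) h23 hpk))
      exact (hp.coprime_iff_not_dvd.2 hpm).symm

/-- All pairs that are reached. -/
theorem reach_graph {n k : ℕ} (h : Reach k n) (hk0 : 1 ≤ k) (hk : 2 * k < n) :
    IsSuperEdgeMagic (GP n k) := by
  refine graph_of hk0 hk ?_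
  rcases h.main.2 with ⟨h1, -⟩ | ⟨-, h1⟩
  · exact Or.inl h1
  · exact Or.inr h1

end Pool.Agent.Helper89.EM
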