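import Mathlib
import Pool.Agent.Helper92.EM.Shape
import Pool.Agent.Helper89.EM.Family
import Pool.Agent.Helper89.EM.Graph

/-!
# The universal lift, prime by prime
-/

set_option autoImplicit false

namespace Pool.Agent.Helper89.EM

/-- Relative labellings of degree `s`, all primes of `s` small against `m`. -/
theorem rel_smooth {k : ℕ} (s : ℕ) (hs : s % 2 = 1) :
    ∀ {m : ℕ}, m % 2 = 1 → (∀ p : ℕ, p.Prime → p ∣ s → 40 * p ^ 2 ≤ m ∧
      ∀ a : ℕ, 0 < a → a < 4 * p → ¬ m ∣ k * a) → Rel m s k := by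
  induction s using Nat.recOnMul with
  | zero => omega
  | one =>
    intro m _ _
    exact Rel.one m k
  | prime p hp =>
    intro m hm h
    exact rel_prime' (nets hm hs).1 (nets hm hs).2 hp hs hm (h p hp dvd_rfl).1 (h p hp dvd_rfl).2
  | mul a b iha ihb =>
    intro m hm h
    have ha : a % 2 = 1 := by
      rcases Nat.mod_two_eq_zero_or_one a with h | h
      · rw [Nat.mul_mod, h] at hs
        simp at hs
      · exact h
    have hb : b % 2 = 1 := by
      rcases Nat.mod_two_eq_zero_or_one b with h | h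
      · rw [Nat.mul_mod, h] at hs
        simp at hs
      · exact h
    have hma : (m * a) % 2 = 1 := by
      rw [Nat.mul_mod, hm, ha]
    refine Rel.comp ha hb (iha ha hm fun p hp hd => h p hp (hd.mul_right b))
      (ihb hb hma fun p hp hd => ?_)
    obtain ⟨h1, h2⟩ := h p hp (hd.mul_left a)
    exact ⟨h1.trans (Nat.le_mul_of_pos_right m (by omega)),
      fun c hc0 hc hd' => h2 c hc0 hc ((dvd_mul_right m a).trans hd')⟩

/-- the length of the inner cycles -/
theorem not_dvd_of_cycle {m k s : ℕ} (hm : 0 < m) (h : 4 * s ≤ m / Nat.gcd k m) :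
    ∀ a : ℕ, 0 < a → a < 4 * s → ¬ m ∣ k * a := by
  intro a ha0 ha hd
  have hg : 0 < Nat.gcd k m := Nat.gcd_pos_of_pos_right _ hm
  have h1 : m / Nat.gcd k m ∣ k / Nat.gcd k m * a := by
    obtain ⟨c, hc⟩ := hd
    refine ⟨c, ?_⟩
    have e1 : k = Nat.gcd k m * (k / Nat.gcd k m) := (Nat.mul_div_cancel' (Nat.gcd_dvd_left k m)).symm
    have e2 : m = Nat.gcd k m * (m / Nat.gcd k m) := (Nat.mul_div_cancel' (Nat.gcd_dvd_right k m)).symm
    refine Nat.eq_of_mul_eq_mul_left hg ?_
    calc Nat.gcd k m * (k / Nat.gcd k m * a) = (Nat.gcd k m * (k / Nat.gcd k m)) * a := by ring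
      _ = (Nat.gcd k m * (m / Nat.gcd k m)) * c := by rw [← e1, ← e2, hc]
      _ = Nat.gcd k m * (m / Nat.gcd k m * c) := by ring
  have h2 : Nat.Coprime (m / Nat.gcd k m) (k / Nat.gcd k m) :=
    (Nat.coprime_div_gcd_div_gcd hg).symm
  have h3 := Nat.le_of_dvd ha0 (h2.dvd_of_dvd_mul_left h1)
  omega

/-- The universal lift, for graphs. -/
theorem lift_graph {m r k k' : ℕ}
    (hm : m % 2 = 1) (hr : r % 2 = 1)
    (hp : ∀ p : ℕ, p.Prime → p ∣ r → 40 * p ^ 2 ≤ m ∧ 4 * p ≤ m / Nat.gcd k m)
    (hk0 : 1 ≤ k) (hk : 2 * k < m) (hk'0 : 1 ≤ k') (hk' : 2 * k' < m * r)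
    (hkk : k' ≡ k [MOD m] ∨ k' + k ≡ 0 [MOD m])
    (h : IsSuperEdgeMagic (GP m k)) : IsSuperEdgeMagic (GP (m * r) k') := by
  have h1 := sem_of_isSuperEdgeMagic (by omega) hk0 hk h
  have h2 : SEM m k' := by
    rcases hkk with h2 | h2
    · exact h1.congr h2.symm
    · exact h1.neg (by rwa [Nat.add_comm])
  have hR : Rel m r k' := by
    refine rel_smooth r hr hm fun p hpp hd => ⟨(hp p hpp hd).1, fun a ha0 ha hd' => ?_⟩
    refine not_dvd_of_cycle (by omega) (hp p hpp hd).2 a ha0 ha ?_
    rcases hkk with h4 | h4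
    · exact ((h4.mul_right a).dvd_iff dvd_rfl).1 hd'
    · have h5 : m ∣ (k' + k) * a := ((Nat.modEq_zero_iff_dvd).1 h4).mul_right a
      rw [add_mul] at h5
      exact (Nat.dvd_add_right hd').1 h5
  have hr0 : 0 < r := by omega
  refine isSuperEdgeMagic_of_sem ?_ ?_ (h2.lift hr0 hR)
  · have : m ≤ m * r := Nat.le_mul_of_pos_right m hr0
    omega
  · intro hd
    have := Nat.le_of_dvd (by omega) hd
    omega

/-- the powers of `3` -/
theorem blk_three_pow {k : ℕ} (hk9 : ¬ 9 ∣ k) (a : ℕ) (ha : 2 ≤ a) :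
    Blk (3 ^ a) k ∧ (3 ^ a) % 2 = 1 := by
  obtain ⟨b, rfl⟩ : ∃ b, a = b + 2 := ⟨a - 2, by omega⟩
  have h := blk_tri (k := k) (m := 9) (by norm_num) hk9
    (blk_small (by norm_num) (by norm_num) (by norm_num) hk9) b
  rwa [show 3 ^ b * 9 = 3 ^ (b + 2) by rw [pow_add]; norm_num] at h

/-- All `k` not divisible by `9`, for `n = 3 ^ a s`. -/
theorem three_graph {a s k : ℕ} (hs : s % 2 = 1)
    (hb : ∀ p : ℕ, p.Prime → p ∣ s → 40 * p ^ 2 ≤ 3 ^ a) (hk9 : ¬ 9 ∣ k)
    (hk0 : 1 ≤ k) (hk : 2 * k < 3 ^ a * s) : IsSuperEdgeMagic (GP (3 ^ a * s) k) := by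
  have h3pos : 0 < 3 ^ a := by positivity
  have key : SEM (3 ^ a * s) k := by
    by_cases ha : 2 ≤ a
    · obtain ⟨h1, h2⟩ := blk_three_pow hk9 a ha
      have hg : Nat.gcd k (3 ^ a) ∣ 3 := by
        obtain ⟨j, hj, hj'⟩ := (Nat.dvd_prime_pow Nat.prime_three).1 (Nat.gcd_dvd_right k (3 ^ a))
        rw [hj']
        have h1 : j ≤ 1 := by
          by_contra h
          apply hk9
          have h2 : 3 ^ 2 ∣ Nat.gcd k (3 ^ a) := by
            rw [hj']
            exact pow_dvd_pow 3 (by omega)
          exact h2.trans (Nat.gcd_dvd_left _ _)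
        calc 3 ^ j ∣ 3 ^ 1 := pow_dvd_pow 3 h1
          _ = 3 := by norm_num
      have hg3 : Nat.gcd k (3 ^ a) ≤ 3 := Nat.le_of_dvd (by norm_num) hg
      have hgpos : 0 < Nat.gcd k (3 ^ a) := Nat.gcd_pos_of_pos_left _ hk0
      refine (SEM.of_blk (by omega) h1).lift (by omega) (rel_smooth s hs h2 fun p hp hd =>
        ⟨hb p hp hd, not_dvd_of_cycle (by omega) ?_⟩)
      rw [Nat.le_div_iff_mul_le hgpos]
      have hss : p ≤ p ^ 2 := Nat.le_self_pow (by norm_num) p
      calc 4 * p * Nat.gcd k (3 ^ a) ≤ 4 * p * 3 := Nat.mul_le_mul_left _ hg3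
        _ ≤ 40 * p ^ 2 := by omega
        _ ≤ 3 ^ a := hb p hp hd
    · have h3a : 3 ^ a ≤ 3 := by
        calc 3 ^ a ≤ 3 ^ 1 := Nat.pow_le_pow_right (by norm_num) (by omega)
          _ = 3 := by norm_num
      have hs1 : s = 1 := by
        by_contra hne
        obtain ⟨p, hp, hd⟩ := Nat.exists_prime_and_dvd hne
        have h1 := hb p hp hd
        have h2 : 1 ≤ p ^ 2 := Nat.one_le_pow _ _ hp.pos
        omega
      subst hs1
      rw [mul_one] at hk ⊢
      have hk1 : k = 1 := by omega
      subst hk1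
      have ha1 : a = 1 := by
        rcases Nat.eq_zero_or_pos a with h | h
        · rw [h] at hk
          omega
        · omega
      subst ha1
      exact SEM.of_blk (by norm_num)
        (blk_small (r := 3) (by norm_num) (by norm_num) (by norm_num) (by norm_num))
  have h0 : 0 < 3 ^ a * s := by omega
  refine isSuperEdgeMagic_of_sem (by omega) ?_ key
  intro hd
  have := Nat.le_of_dvd (by omega) hd
  omega

/-- the part of `n` with prime factors below `t` -/
def below (n t : ℕ) : ℕ := ∏ q ∈ n.primeFactors.filter (· < t), q ^ n.factorization q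

theorem below_succ_of_not_mem {n t : ℕ} (h : ¬ (t.Prime ∧ t ∣ n)) (hn : n ≠ 0) :
    below n (t + 1) = below n t := by
  unfold below
  congr 1
  ext q
  simp only [Finset.mem_filter, Nat.mem_primeFactors]
  constructor
  · rintro ⟨⟨h1, h2, h3⟩, h4⟩
    refine ⟨⟨h1, h2, h3⟩, ?_⟩
    rcases Nat.lt_or_ge q t with h5 | h5
    · exact h5
    · have : q = t := by omega
      subst this
      exact (h ⟨h1, h2⟩).elim
  · rintro ⟨h1, h4⟩
    exact ⟨h1, by omega⟩

theorem below_succ_of_mem {n t : ℕ} (ht : t.Prime) (hd : t ∣ n) (hn : n ≠ 0) :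
    below n (t + 1) = below n t * t ^ n.factorization t := by
  unfold below
  have h1 : n.primeFactors.filter (· < t + 1) = insert t (n.primeFactors.filter (· < t)) := by
    ext q
    simp only [Finset.mem_filter, Nat.mem_primeFactors, Finset.mem_insert]
    constructor
    · rintro ⟨h1, h4⟩
      rcases Nat.lt_or_ge q t with h5 | h5
      · exact Or.inr ⟨h1, h5⟩
      · exact Or.inl (by omega)
    · rintro (rfl | ⟨h1, h4⟩)
      · exact ⟨⟨ht, hd, hn⟩, by omega⟩
      · exact ⟨h1, by omega⟩
  rw [h1, Finset.prod_insert (by simp), mul_comm]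

theorem below_dvd {n t : ℕ} (hn : n ≠ 0) : below n t ∣ n := by
  unfold below
  conv_rhs => rw [← Nat.factorization_prod_pow_eq_self hn]
  rw [Finsupp.prod, Nat.support_factorization]
  exact Finset.prod_dvd_prod_of_subset _ _ _ (Finset.filter_subset _ _)

theorem below_top {n t : ℕ} (hn : n ≠ 0) (ht : n < t) : below n t = n := by
  unfold below
  rw [Finset.filter_true_of_mem fun q hq =>
    lt_of_le_of_lt (Nat.le_of_mem_primeFactors hq) ht]
  conv_rhs => rw [← Nat.factorization_prod_pow_eq_self hn]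
  rw [Finsupp.prod, Nat.support_factorization]

/-- the condition on the primes -/
def Tame (n : ℕ) : Prop := ∀ p : ℕ, p.Prime → p ∣ n →
  p = 3 ∨ (p ≤ 23 ∧ ¬ p ^ 2 ∣ n) ∨ 40 * p ^ 2 ≤ below n p

theorem blk_tame {n k : ℕ} (hn : n % 2 = 1) (hk : Nat.Coprime k n) (h : Tame n) (t : ℕ) :
    Blk (below n t) k := by
  have hn0 : n ≠ 0 := by omega
  have hodd : ∀ t, below n t % 2 = 1 := fun t => by
    rcases Nat.mod_two_eq_zero_or_one (below n t) with h1 | h1
    · have : 2 ∣ n := (Nat.dvd_of_mod_eq_zero h1).trans (below_dvd hn0)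
      omega
    · exact h1
  have hcop : ∀ t, Nat.Coprime k (below n t) := fun t =>
    Nat.Coprime.coprime_dvd_right (below_dvd hn0) hk
  induction t with
  | zero =>
    have : below n 0 = 1 := by
      unfold below
      simp
    rw [this]
    exact Rel.one 1 k
  | succ t ih =>
    by_cases hpt : t.Prime ∧ t ∣ n
    · obtain ⟨hp, hd⟩ := hpt
      rw [below_succ_of_mem hp hd hn0]
      have ht2 : t % 2 = 1 := by
        rcases Nat.mod_two_eq_zero_or_one t with h1 | h1
        · have : 2 ∣ n := (Nat.dvd_of_mod_eq_zero h1).trans hd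
          omega
        · exact h1
      have hkt : Nat.Coprime k t := Nat.Coprime.coprime_dvd_right hd hk
      have hndt : ¬ t ∣ k := fun h1 => by
        have := Nat.Coprime.eq_one_of_dvd hkt.symm h1
        exact hp.one_lt.ne' this
      have ht3 : 3 ≤ t := by
        have := hp.two_le
        omega
      have htc : Nat.Coprime t (below n t) := by
        unfold below
        refine Nat.Coprime.prod_right fun q hq => ?_
        rw [Finset.mem_filter, Nat.mem_primeFactors] at hq
        exact Nat.Coprime.pow_right _ ((Nat.coprime_primes hp hq.1.1).2 (by omega))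
      rcases h t hp hd with h3 | ⟨h23, hsq⟩ | hbig
      · -- `t = 3`
        subst h3
        have hb3 : below n 3 = 1 := by
          unfold below
          refine Finset.prod_eq_one fun q hq => ?_
          rw [Finset.mem_filter, Nat.mem_primeFactors] at hq
          have h5 := hq.1.1.two_le
          have h6 : q = 2 := by omega
          subst h6
          omega
        rw [hb3, one_mul]
        have hv : 1 ≤ n.factorization 3 :=
          (Nat.Prime.dvd_iff_one_le_factorization Nat.prime_three hn0).1 hd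
        obtain ⟨a, ha⟩ : ∃ a, n.factorization 3 = a + 1 := ⟨n.factorization 3 - 1, by omega⟩
        rw [ha, pow_succ]
        exact (blk_tri (by norm_num) hndt
          (blk_small (r := 3) (by norm_num) (by norm_num) (by norm_num) hndt) a).1
      · have hv : n.factorization t = 1 := by
          have h5 : 1 ≤ n.factorization t :=
            (Nat.Prime.dvd_iff_one_le_factorization hp hn0).1 hd
          have h6 : ¬ 2 ≤ n.factorization t := fun h7 =>
            hsq ((Nat.Prime.pow_dvd_iff_le_factorization hp hn0).2 h7)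
          omega
        rw [hv, pow_one]
        have h8 : Blk t k := blk_small ht2 ht3 h23 hndt
        refine Rel.comp (hodd t) ht2 ih ?_
        rw [one_mul]
        exact Rel.of_blk (by omega) htc.symm h8
      · refine Rel.comp (hodd t) ?_ ih ?_
        · rw [Nat.pow_mod, ht2, one_pow]
          rfl
        · rw [one_mul]
          refine rel_smooth _ (by rw [Nat.pow_mod, ht2, one_pow]; rfl) (hodd t)
            fun p hpp hpd => ?_
          have hpt : p = t := (Nat.prime_dvd_prime_iff_eq hpp hp).1 (hpp.dvd_of_dvd_pow hpd)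
          subst hpt
          refine ⟨hbig, fun a ha0 ha hda => ?_⟩
          have h9 := Nat.le_of_dvd ha0 ((hcop p).symm.dvd_of_dvd_mul_left hda)
          have h10 : p ≤ p ^ 2 := Nat.le_self_pow (by norm_num) p
          omega
    · rw [below_succ_of_not_mem hpt hn0]
      exact ih

/-- All `k` prime to a tame `n`. -/
theorem tame_graph {n k : ℕ} (hn : n % 2 = 1) (h : Tame n) (hk : Nat.Coprime k n) (hk0 : 1 ≤ k)
    (hkn : 2 * k < n) : IsSuperEdgeMagic (GP n k) := by
  have h1 := blk_tame hn hk h (n + 1)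
  rw [below_top (by omega) (by omega)] at h1
  refine isSuperEdgeMagic_of_sem (by omega) ?_ (SEM.of_blk (by omega) h1)
  intro hd
  have := Nat.le_of_dvd (by omega) hd
  omega

end Pool.Agent.Helper89.EM
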